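import Mathlib

set_option autoImplicit false

namespace Pool.Agent.Slp57

variable {G : Type*} [Group G]

/-- A list, read from its last entry to its first entry, is a multiplication chain from `X`:
each entry is the product of two elements, each lying in `X` or standing later in the list. -/
def IsCh (X : Set G) : List G → Prop
  | [] => True
  | g :: l => (∃ a b : G, (a ∈ X ∨ a ∈ l) ∧ (b ∈ X ∨ b ∈ l) ∧ g = a * b) ∧ IsCh X l

/-- All elements of `T` are obtained from `X` by one chain with at most `n` multiplications. -/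
def Got (X : Set G) (n : ℕ) (T : Set G) : Prop :=
  ∃ l : List G, IsCh X l ∧ l.length ≤ n ∧ ∀ t ∈ T, t ∈ X ∨ t ∈ l

theorem Got.base (X : Set G) : Got X 0 X :=
  ⟨[], trivial, le_rfl, fun _ ht => Or.inl ht⟩

theorem Got.mono {X T T' : Set G} {n n' : ℕ} (h : Got X n T) (hn : n ≤ n') (hT : T' ⊆ T) :
    Got X n' T' := by
  obtain ⟨l, h1, h2, h3⟩ := h
  exact ⟨l, h1, h2.trans hn, fun t ht => h3 t (hT ht)⟩

theorem Got.mul {X T : Set G} {n : ℕ} {a b : G} (h : Got X n T) (ha : a ∈ T) (hb : b ∈ T) :
    Got X (n + 1) (insert (a * b) T) := by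
  obtain ⟨l, h1, h2, h3⟩ := h
  refine ⟨(a * b) :: l, ⟨⟨a, b, h3 a ha, h3 b hb, rfl⟩, h1⟩, by simpa using h2, ?_⟩
  intro t ht
  rcases ht with rfl | ht
  · right
    simp
  · rcases h3 t ht with h | h
    · exact Or.inl h
    · right
      exact List.mem_cons_of_mem _ h

theorem Got.list {X T : Set G} {n : ℕ} (h : Got X n T) (h1 : (1 : G) ∈ T) (l : List G)
    (hl : ∀ x ∈ l, x ∈ T) : Got X (n + l.length) (insert l.prod T) := by
  induction l with
  | nil =>
    refine h.mono (by simp) ?_
    intro t ht
    rcases ht with rfl | ht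
    · simpa using h1
    · exact ht
  | cons a l ih =>
    have h2 := ih (fun x hx => hl x (List.mem_cons_of_mem _ hx))
    have h3 := h2.mul (a := a) (b := l.prod) (Or.inr (hl a (by simp))) (Or.inl rfl)
    refine h3.mono (by simp [add_assoc]) ?_
    intro t ht
    rcases ht with rfl | ht
    · left
      simp
    · right
      right
      exact ht

theorem Got.table {X T : Set G} {n : ℕ} (h : Got X n T) (y : G) (hy : y ∈ T) (B : Finset G)
    (hB : ∀ b ∈ B, b ∈ T) : Got X (n + B.card) (T ∪ {g | ∃ b ∈ B, g = b * y}) := by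
  classical
  induction B using Finset.induction_on with
  | empty =>
    refine h.mono (by simp) ?_
    intro t ht
    rcases ht with ht | ⟨b, hb, _⟩
    · exact ht
    · simp at hb
  | insert a B ha ih =>
    have h2 := ih (fun b hb => hB b (Finset.mem_insert_of_mem hb))
    have h3 := h2.mul (a := a) (b := y) (Or.inl (hB a (Finset.mem_insert_self _ _)))
      (Or.inl hy)
    refine h3.mono (by rw [Finset.card_insert_of_notMem ha]; omega) ?_
    intro t ht
    rcases ht with ht | ⟨b, hb, rfl⟩
    · exact Or.inr (Or.inl ht)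
    · rcases Finset.mem_insert.mp hb with rfl | hb
      · exact Or.inl rfl
      · exact Or.inr (Or.inr ⟨b, hb, rfl⟩)

theorem Got.table' {X T : Set G} {n : ℕ} (h : Got X n T) (y : G) (hy : y ∈ T) (B : Finset G)
    (hB : ∀ b ∈ B, b⁻¹ ∈ T) : Got X (n + B.card) (T ∪ {g | ∃ b ∈ B, g = y * b⁻¹}) := by
  classical
  induction B using Finset.induction_on with
  | empty =>
    refine h.mono (by simp) ?_
    intro t ht
    rcases ht with ht | ⟨b, hb, _⟩
    · exact ht
    · simp at hb
  | insert a B ha ih =>
    have h2 := ih (fun b hb => hB b (Finset.mem_insert_of_mem hb))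
    have h3 := h2.mul (a := y) (b := a⁻¹) (Or.inl hy)
      (Or.inl (hB a (Finset.mem_insert_self _ _)))
    refine h3.mono (by rw [Finset.card_insert_of_notMem ha]; omega) ?_
    intro t ht
    rcases ht with ht | ⟨b, hb, rfl⟩
    · exact Or.inr (Or.inl ht)
    · rcases Finset.mem_insert.mp hb with rfl | hb
      · exact Or.inl rfl
      · exact Or.inr (Or.inr ⟨b, hb, rfl⟩)

/-- Binary powering. -/
theorem pow_cost (e : ℕ) (he : 1 ≤ e) : ∃ s : ℕ, 4 * 2 ^ s ≤ (e + 1) ^ 2 ∧
    ∀ (X T : Set G) (n : ℕ) (x : G), Got X n T → x ∈ T → Got X (n + s) (insert (x ^ e) T) := by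
  induction e using Nat.strong_induction_on with
  | _ e ih =>
    rcases Nat.lt_or_ge e 2 with h2 | h2
    · have he1 : e = 1 := by omega
      subst he1
      refine ⟨0, by norm_num, ?_⟩
      intro X T n x h hx
      refine h.mono (by omega) ?_
      intro t ht
      rcases ht with rfl | ht
      · simpa using hx
      · exact ht
    · rcases Nat.even_or_odd' e with ⟨f, hf | hf⟩
      · obtain ⟨s, hs, h3⟩ := ih f (by omega) (by omega)
        refine ⟨s + 1, ?_, ?_⟩
        · subst hf
          have : 1 ≤ f := by omega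
          rw [pow_succ]
          nlinarith
        · intro X T n x h hx
          have h4 := h3 X T n x h hx
          have h5 := h4.mul (a := x ^ f) (b := x ^ f) (Or.inl rfl) (Or.inl rfl)
          refine h5.mono (by omega) ?_
          intro t ht
          rcases ht with rfl | ht
          · left
            rw [hf, two_mul, pow_add]
          · exact Or.inr (Or.inr ht)
      · obtain ⟨s, hs, h3⟩ := ih f (by omega) (by omega)
        refine ⟨s + 2, ?_, ?_⟩
        · subst hf
          rw [pow_add]
          nlinarith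
        · intro X T n x h hx
          have h4 := h3 X T n x h hx
          have h5 := h4.mul (a := x ^ f) (b := x ^ f) (Or.inl rfl) (Or.inl rfl)
          have h6 := h5.mul (a := x ^ f * x ^ f) (b := x) (Or.inl rfl) (Or.inr (Or.inr hx))
          refine h6.mono (by omega) ?_
          intro t ht
          rcases ht with rfl | ht
          · left
            rw [hf, pow_succ, two_mul, pow_add]
          · exact Or.inr (Or.inr (Or.inr ht))

/-- Conversion to sequences indexed by `Fin k`. -/
theorem IsCh.toFin {X : Set G} (l : List G) (h : IsCh X l) :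
    ∃ y : Fin l.length → G,
      (∀ i : Fin l.length, ∃ a b : G,
        (a ∈ X ∨ ∃ j : Fin l.length, j < i ∧ y j = a) ∧
        (b ∈ X ∨ ∃ j : Fin l.length, j < i ∧ y j = b) ∧
        y i = a * b) ∧
      ∀ t ∈ l, ∃ i : Fin l.length, y i = t := by
  induction l with
  | nil =>
    refine ⟨fun i => i.elim0, fun i => i.elim0, ?_⟩
    intro t ht
    simp at ht
  | cons g l ih =>
    obtain ⟨⟨a, b, ha, hb, hg⟩, hl⟩ := h
    obtain ⟨y, hy, hmem⟩ := ih hl
    refine ⟨Fin.snoc (α := fun _ => G) y g, ?_, ?_⟩
    · intro i
      refine Fin.lastCases ?_ (fun i => ?_) i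
      · refine ⟨a, b, ?_, ?_, ?_⟩
        · rcases ha with ha | ha
          · exact Or.inl ha
          · obtain ⟨j, hj⟩ := hmem a ha
            exact Or.inr ⟨j.castSucc, Fin.castSucc_lt_last j, by simpa using hj⟩
        · rcases hb with hb | hb
          · exact Or.inl hb
          · obtain ⟨j, hj⟩ := hmem b hb
            exact Or.inr ⟨j.castSucc, Fin.castSucc_lt_last j, by simpa using hj⟩
        · simpa using hg
      · obtain ⟨a', b', ha', hb', hab⟩ := hy i
        refine ⟨a', b', ?_, ?_, ?_⟩
        · rcases ha' with h | ⟨j, hj, hja⟩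
          · exact Or.inl h
          · exact Or.inr ⟨j.castSucc, by simpa using hj, by simpa using hja⟩
        · rcases hb' with h | ⟨j, hj, hja⟩
          · exact Or.inl h
          · exact Or.inr ⟨j.castSucc, by simpa using hj, by simpa using hja⟩
        · simpa using hab
    · intro t ht
      rcases List.mem_cons.mp ht with rfl | ht
      · exact ⟨Fin.last _, by simp⟩
      · obtain ⟨j, hj⟩ := hmem t ht
        exact ⟨j.castSucc, by simpa using hj⟩

end Pool.Agent.Slp57
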