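import Pool.Agent.Slp57.Main

set_option autoImplicit false

namespace Pool.Agent.Slp57

theorem F_bound (b : ℕ) (hb : 0 < b) (k : ℕ) :
    (F b k : ℝ) ≤ 2 * (k : ℝ) ^ 2 / b + (6 + 2 ^ b) * k := by
  have hbR : (0 : ℝ) < b := by exact_mod_cast hb
  induction k with
  | zero => simp [F]
  | succ k ih =>
    have h1 : ((k / b : ℕ) : ℝ) ≤ (k : ℝ) / b := Nat.cast_div_le
    have h2 : (2 : ℝ) * 2 ^ (k % b) ≤ 2 ^ b := by
      have h3 : k % b < b := Nat.mod_lt _ hb
      have h4 : (2 : ℝ) ^ (k % b + 1) ≤ 2 ^ b :=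
        pow_le_pow_right₀ (by norm_num) (by omega)
      rw [pow_succ] at h4
      linarith
    have h5 : (F b (k + 1) : ℝ) = F b k + (4 * (((k / b : ℕ) : ℝ) + 1) + 2 + 2 * 2 ^ (k % b)) := by
      simp only [F]
      push_cast
      ring
    rw [h5]
    have h6 : 2 * ((k + 1 : ℕ) : ℝ) ^ 2 / b = 2 * (k : ℝ) ^ 2 / b + 4 * (k / b) + 2 / b := by
      push_cast
      field_simp
      ring
    rw [h6]
    have h7 : (0 : ℝ) < 2 / b := by positivity
    push_cast
    nlinarith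

theorem main_real {G : Type*} [Group G] [Finite G] [Nontrivial G] (X : Set G)
    (hX : Subgroup.closure X = ⊤) (b : ℕ) (hb : 0 < b) (g : G) :
    ∃ n : ℕ, (n : ℝ) ≤ 2 * (Real.logb 2 (Nat.card G)) ^ 2 / b
        + (2 ^ b + 14) * Real.logb 2 (Nat.card G) ∧ Got X n {g} := by
  obtain ⟨n0, k, s, h1, h2, h3, h4⟩ := main_nat X hX b hb g
  refine ⟨_, ?_, h4⟩
  set L := Real.logb 2 (Nat.card G) with hL
  have hG2 : 2 ≤ Nat.card G := Finite.one_lt_card
  have hGpos : (0 : ℝ) < Nat.card G := by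
    have : 0 < Nat.card G := by omega
    exact_mod_cast this
  have hL1 : 1 ≤ L := by
    rw [hL, Real.le_logb_iff_rpow_le (by norm_num) hGpos]
    simpa using (by exact_mod_cast hG2 : (2 : ℝ) ≤ Nat.card G)
  have hk : (k : ℝ) ≤ L := by
    rw [hL, Real.le_logb_iff_rpow_le (by norm_num) hGpos, Real.rpow_natCast]
    exact_mod_cast h2
  have hsq : ∀ t : ℕ, 2 ^ t ≤ (Nat.card G) ^ 2 → (t : ℝ) ≤ 2 * L := by
    intro t ht
    have h5 : (t : ℝ) ≤ Real.logb 2 ((Nat.card G : ℝ) ^ 2) := by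
      rw [Real.le_logb_iff_rpow_le (by norm_num) (by positivity), Real.rpow_natCast]
      exact_mod_cast ht
    have h6 : Real.logb 2 ((Nat.card G : ℝ) ^ 2) = 2 * L := by
      rw [Real.logb_pow]
      norm_num [hL]
    linarith
  have hn0 := hsq n0 h1
  have hs := hsq s h3
  have hF := F_bound b hb k
  have hbR : (1 : ℝ) ≤ b := by exact_mod_cast hb
  have hb0 : (0 : ℝ) < b := by linarith
  have hk0 : (0 : ℝ) ≤ k := by positivity
  have h7 : ((k / b : ℕ) : ℝ) ≤ L := by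
    have h8 : ((k / b : ℕ) : ℝ) ≤ (k : ℝ) := by
      exact_mod_cast Nat.div_le_self k b
    linarith
  have h9 : 2 * (k : ℝ) ^ 2 / b ≤ 2 * L ^ 2 / b := by
    apply div_le_div_of_nonneg_right _ hb0.le
    nlinarith
  have h10 : (6 + (2 : ℝ) ^ b) * k ≤ (6 + 2 ^ b) * L :=
    mul_le_mul_of_nonneg_left hk (by positivity)
  push_cast
  nlinarith

/-- Any constant above `2` works asymptotically. -/
theorem asym (ε : ℝ) (hε : 0 < ε) : ∃ N : ℕ, ∀ m : ℕ, N ≤ m → ∃ b : ℕ, 0 < b ∧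
    2 * (Real.logb 2 m) ^ 2 / b + (2 ^ b + 14) * Real.logb 2 m
      ≤ (2 + ε) * (Real.logb 2 m) ^ 2 / Real.logb 2 (Real.logb 2 m) := by
  set δ : ℝ := ε / (4 + ε) with hδ
  have hδ0 : 0 < δ := by positivity
  have hδ1 : δ < 1 := by
    rw [hδ, div_lt_one (by positivity)]
    linarith
  -- the error term tends to zero
  have hlog2 : 0 < Real.log 2 := Real.log_pos (by norm_num)
  have ht1 : Filter.Tendsto (fun x : ℝ => Real.log x / x ^ δ) Filter.atTop (nhds 0) :=
    (isLittleO_log_rpow_atTop hδ0).tendsto_div_nhds_zero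
  have hev1 : ∀ᶠ x : ℝ in Filter.atTop, Real.log x / x ^ δ ≤ ε / 32 * Real.log 2 := by
    have h := ht1.eventually (gt_mem_nhds (show (0 : ℝ) < ε / 32 * Real.log 2 by positivity))
    filter_upwards [h] with x hx
    exact hx.le
  have hev2 : ∀ᶠ x : ℝ in Filter.atTop, (14 : ℝ) ≤ x ^ (1 - δ) :=
    (tendsto_rpow_atTop (by linarith)).eventually_ge_atTop 14
  have hall : ∀ᶠ x : ℝ in Filter.atTop, ∃ b : ℕ, 0 < b ∧
      2 * x ^ 2 / b + (2 ^ b + 14) * x ≤ (2 + ε) * x ^ 2 / Real.logb 2 x := by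
    filter_upwards [hev1, hev2, Filter.eventually_gt_atTop (2 : ℝ)] with x hx1 hx2 hx3
    have hx0 : 0 < x := by linarith
    have hlx : 0 < Real.logb 2 x := Real.logb_pos (by norm_num) (by linarith)
    have hy0 : 0 < (1 - δ) * Real.logb 2 x := mul_pos (by linarith) hlx
    refine ⟨⌈(1 - δ) * Real.logb 2 x⌉₊, Nat.ceil_pos.mpr hy0, ?_⟩
    set b := ⌈(1 - δ) * Real.logb 2 x⌉₊ with hbdef
    have hb1 : (1 - δ) * Real.logb 2 x ≤ b := Nat.le_ceil _
    have hb2 : (b : ℝ) < (1 - δ) * Real.logb 2 x + 1 := Nat.ceil_lt_add_one hy0.le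
    have hpow : (2 : ℝ) ^ b ≤ 2 * x ^ (1 - δ) := by
      rw [← Real.rpow_natCast]
      calc (2 : ℝ) ^ (b : ℝ) ≤ 2 ^ ((1 - δ) * Real.logb 2 x + 1) :=
            Real.rpow_le_rpow_of_exponent_le (by norm_num) hb2.le
        _ = 2 * x ^ (1 - δ) := by
            rw [Real.rpow_add (by norm_num), Real.rpow_one, mul_comm (1 - δ),
              Real.rpow_mul (by norm_num), Real.rpow_logb (by norm_num) (by norm_num) hx0]
            ring
    have hA : 2 * x ^ 2 / b ≤ (2 + ε / 2) * x ^ 2 / Real.logb 2 x := by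
      have h1 : 2 * x ^ 2 / b ≤ 2 * x ^ 2 / ((1 - δ) * Real.logb 2 x) :=
        div_le_div_of_nonneg_left (by positivity) hy0 hb1
      have h2 : 2 * x ^ 2 / ((1 - δ) * Real.logb 2 x)
          = (2 + ε / 2) * x ^ 2 / Real.logb 2 x := by
        have h3 : 1 - δ = 4 / (4 + ε) := by
          rw [hδ]
          field_simp
          ring
        rw [h3]
        field_simp
        ring
      linarith
    have hB : (2 ^ b + 14) * x ≤ (ε / 2) * x ^ 2 / Real.logb 2 x := by
      rw [le_div_iff₀ hlx]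
      have h1 : (2 : ℝ) ^ b + 14 ≤ 3 * x ^ (1 - δ) := by linarith
      have h2 : Real.logb 2 x ≤ ε / 32 * x ^ δ := by
        rw [Real.logb, div_le_iff₀ hlog2]
        rw [div_le_iff₀ (by positivity)] at hx1
        linarith
      have h4 : x ^ (1 - δ) * x ^ δ = x := by
        rw [← Real.rpow_add hx0]
        simp
      calc (2 ^ b + 14) * x * Real.logb 2 x
          ≤ (3 * x ^ (1 - δ)) * x * (ε / 32 * x ^ δ) := by
            apply mul_le_mul _ h2 hlx.le (by positivity)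
            exact mul_le_mul_of_nonneg_right h1 hx0.le
        _ = 3 * ε / 32 * x * (x ^ (1 - δ) * x ^ δ) := by ring
        _ = 3 * ε / 32 * x * x := by rw [h4]
        _ ≤ ε / 2 * x ^ 2 := by nlinarith [mul_pos hε (mul_pos hx0 hx0)]
    calc 2 * x ^ 2 / b + (2 ^ b + 14) * x
        ≤ (2 + ε / 2) * x ^ 2 / Real.logb 2 x + (ε / 2) * x ^ 2 / Real.logb 2 x :=
          add_le_add hA hB
      _ = (2 + ε) * x ^ 2 / Real.logb 2 x := by ring
  have htend : Filter.Tendsto (fun m : ℕ => Real.logb 2 (m : ℝ)) Filter.atTop Filter.atTop :=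
    (Real.tendsto_logb_atTop (by norm_num)).comp tendsto_natCast_atTop_atTop
  have h := htend.eventually hall
  rw [Filter.eventually_atTop] at h
  exact h

end Pool.Agent.Slp57
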