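import Pool.Agent.Slp57.Make

set_option autoImplicit false

open scoped commutatorElement

namespace Pool.Agent.Slp57

variable {G : Type*} [Group G]

/-- All products of nonempty suffixes. -/
theorem Got.suffixes' {X T : Set G} {n : ℕ} (h : Got X n T) (l : List G)
    (hl : ∀ x ∈ l, x ∈ T) :
    Got X (n + (l.length - 1)) (T ∪ {g | ∃ s : List G, s ≠ [] ∧ s <:+ l ∧ s.prod = g}) := by
  induction l with
  | nil =>
    refine h.mono (by simp) ?_
    intro t ht
    rcases ht with ht | ⟨s, hs0, hs, rfl⟩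
    · exact ht
    · rw [List.suffix_nil] at hs
      exact absurd hs hs0
  | cons a l ih =>
    have h2 := ih (fun x hx => hl x (List.mem_cons_of_mem _ hx))
    rcases eq_or_ne l [] with hl0 | hl0
    · subst hl0
      refine h.mono (by simp) ?_
      intro t ht
      rcases ht with ht | ⟨s, hs0, hs, rfl⟩
      · exact ht
      · rcases List.suffix_cons_iff.mp hs with h | h
        · rw [h]
          simpa using hl a (by simp)
        · rw [List.suffix_nil] at h
          exact absurd h hs0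
    · have h3 := h2.mul (a := a) (b := l.prod) (Or.inl (hl a (by simp)))
        (Or.inr ⟨l, hl0, List.suffix_refl l, rfl⟩)
      have hlen : 0 < l.length := List.length_pos_iff.mpr hl0
      refine h3.mono (by rw [List.length_cons]; omega) ?_
      intro t ht
      rcases ht with ht | ⟨s, hs0, hs, rfl⟩
      · exact Or.inr (Or.inl ht)
      · rcases List.suffix_cons_iff.mp hs with h | h
        · left
          rw [h, List.prod_cons]
        · exact Or.inr (Or.inr ⟨s, hs0, h, rfl⟩)

/-- The identity and all inverses of the entries of a nonempty list. -/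
theorem Got.allInv' [Finite G] [Nontrivial G] {X T : Set G} {n : ℕ} (h : Got X n T)
    (l : List G) (hl0 : l ≠ []) (hl : ∀ x ∈ l, x ∈ T) :
    ∃ s : ℕ, 4 * 2 ^ s ≤ (Nat.card G) ^ 2 ∧
      Got X (n + s + 3 * l.length) (insert 1 (T ∪ {g | ∃ x ∈ l, g = x⁻¹})) := by
  have hG2 : 2 ≤ Nat.card G := Finite.one_lt_card
  obtain ⟨s, hs, hpow⟩ := pow_cost (G := G) (Nat.card G - 1) (by omega)
  have e : Nat.card G - 1 + 1 = Nat.card G := by omega
  rw [e] at hs
  refine ⟨s, hs, ?_⟩
  have g1 := h.suffixes' l hl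
  have g2 := hpow _ _ _ l.prod g1 (Or.inr ⟨l, hl0, List.suffix_refl l, rfl⟩)
  have e2 : l.prod ^ (Nat.card G - 1) = l.prod⁻¹ := by
    rw [eq_inv_iff_mul_eq_one, ← pow_succ, e, pow_card_eq_one']
  rw [e2] at g2
  have g3 := g2.mul (a := l.prod) (b := l.prod⁻¹)
    (Or.inr (Or.inr ⟨l, hl0, List.suffix_refl l, rfl⟩)) (Or.inl rfl)
  rw [mul_inv_cancel] at g3
  have g4 := Got.inverses l _ _ g3 (fun x hx => Or.inr (Or.inr (Or.inl (hl x hx))))
    (fun s hs => by
      rcases eq_or_ne s [] with h0 | h0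
      · subst h0
        exact Or.inl rfl
      · exact Or.inr (Or.inr (Or.inr ⟨s, h0, hs, rfl⟩))) (Or.inr (Or.inl rfl))
  have hlen : 0 < l.length := List.length_pos_iff.mpr hl0
  refine g4.mono (by omega) ?_
  intro t ht
  rcases ht with ht | ht | ht
  · exact Or.inl (Or.inl ht)
  · exact Or.inl (Or.inr (Or.inr (Or.inl ht)))
  · exact Or.inr ht

/-- The level statement along the derived series. -/
theorem levels [Finite G] [Group.IsSolvable G] {X Y0 M0 : Set G} {n0 : ℕ}
    (hY0M : Y0 ⊆ M0) (hY0 : Subgroup.closure Y0 = ⊤) (h1 : (1 : G) ∈ M0)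
    (hinv : ∀ m ∈ M0, m⁻¹ ∈ M0) (hY0fin : Y0.Finite) (hgot : Got X n0 (X ∪ M0)) (i : ℕ) :
    ∃ (t q : ℕ) (Y : Finset G) (M : Set G), M0 ⊆ M ∧ (∀ m ∈ M, m⁻¹ ∈ M) ∧
      (∀ y ∈ Y, y ∈ derivedSeries G i) ∧ (∀ y ∈ Y, y ∈ M) ∧
      (Subgroup.closure (Y : Set G) ⊔ derivedSeries G (i + 2) : Subgroup G) = derivedSeries G i ∧
      Got X (n0 + 6 * t) (X ∪ M) ∧
      2 ^ t * (Nat.card (derivedSeries G (i + 1)) * Nat.card (derivedSeries G (i + 2)))
        ≤ (Nat.card G) ^ 2 ∧
      Exp X M (derivedSeries G i) q ∧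
      2 ^ q * (Nat.card (derivedSeries G i)) ^ 2 ≤ (Nat.card G) ^ 2 := by
  classical
  have hle : ∀ H : Subgroup G, Nat.card H ≤ Nat.card G := fun H =>
    Nat.le_of_dvd Nat.card_pos (Subgroup.card_subgroup_dvd_card _)
  induction i with
  | zero =>
    refine ⟨0, 0, hY0fin.toFinset, M0, Set.Subset.refl _, hinv, ?_, ?_, ?_, by simpa using hgot,
      ?_, ?_, ?_⟩
    · intro y _
      rw [derivedSeries_zero]
      exact Subgroup.mem_top y
    · intro y hy
      exact hY0M (hY0fin.mem_toFinset.mp hy)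
    · rw [Set.Finite.coe_toFinset, hY0, derivedSeries_zero, top_sup_eq]
    · rw [pow_zero, one_mul, sq]
      exact Nat.mul_le_mul (hle _) (hle _)
    · intro g
      refine ⟨1, by rw [derivedSeries_zero]; exact Subgroup.mem_top _, ?_⟩
      intro T n hT hg
      refine hg.mono (by omega) ?_
      intro u hu
      rcases hu with rfl | hu
      · exact hT h1
      · exact hu
    · rw [pow_zero, one_mul]
      exact Nat.pow_le_pow_left (hle _) 2
  | succ i ih =>
    obtain ⟨t, q, Y, M, hM0M, hinvM, hYD, hYM, hgen, hgotM, ht, hE, hq⟩ := ih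
    -- express modulo the next term
    have hcomm : ∀ a ∈ derivedSeries G i, ∀ b ∈ derivedSeries G i,
        ⁅a, b⁆ ∈ derivedSeries G (i + 1) := by
      intro a ha b hb
      rw [derivedSeries_succ]
      exact Subgroup.commutator_mem_commutator ha hb
    have hanti : derivedSeries G (i + 1) ≤ derivedSeries G i :=
      derivedSeries_antitone G (by omega)
    have hsup : (Subgroup.closure (Y : Set G) ⊔ derivedSeries G (i + 1) : Subgroup G)
        = derivedSeries G i := by
      apply le_antisymm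
      · apply sup_le _ hanti
        rw [Subgroup.closure_le]
        intro y hy
        exact hYD y hy
      · calc derivedSeries G i
            = (Subgroup.closure (Y : Set G) ⊔ derivedSeries G (i + 2) : Subgroup G) := hgen.symm
          _ ≤ _ := sup_le_sup_left (derivedSeries_antitone G (by omega)) _
    obtain ⟨s, hs, hE2⟩ := sec (X := X) (M := M) hcomm hanti Y hYD hYM q (by rw [hsup]; exact hE)
    rw [hsup] at hs
    -- make generators of the next term
    obtain ⟨t2, Y2, M2, hMM2, hinv2, hY2D, hY2M, hgen2, hgot2, hcard2⟩ :=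
      make (X := X) (M := M) (Y := (Y : Set G)) (Y0 := Y0) (n := n0 + 6 * t)
        (hY0M.trans hM0M) hY0 hinvM (fun y hy => hYM y hy)
        (derivedSeries G (i + 3)) (derivedSeries G (i + 1))
        (derivedSeries_normal G _) (derivedSeries_normal G _)
        (derivedSeries_antitone G (by omega))
        (fun a ha b hb => hcomm a (hYD a ha) b (hYD b hb))
        (fun K hKn hK => key_normal i (Y : Set G) hgen.ge K hKn hK)
        hgotM
    refine ⟨t + t2, q + s, Y2, M2, hM0M.trans hMM2, hinv2, hY2D, hY2M, hgen2,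
      hgot2.mono (by omega) (Set.Subset.refl _), ?_, hE2.mono hMM2, ?_⟩
    · calc 2 ^ (t + t2) * (Nat.card (derivedSeries G (i + 1 + 1))
            * Nat.card (derivedSeries G (i + 1 + 2)))
          = 2 ^ t * Nat.card (derivedSeries G (i + 2))
            * (2 ^ t2 * Nat.card (derivedSeries G (i + 3))) := by
            rw [pow_add]
            ring
        _ ≤ 2 ^ t * Nat.card (derivedSeries G (i + 2)) * Nat.card (derivedSeries G (i + 1)) :=
            Nat.mul_le_mul_left _ hcard2
        _ = 2 ^ t * (Nat.card (derivedSeries G (i + 1)) * Nat.card (derivedSeries G (i + 2))) := by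
            ring
        _ ≤ _ := ht
    · calc 2 ^ (q + s) * (Nat.card (derivedSeries G (i + 1))) ^ 2
          = 2 ^ q * (2 ^ s * (Nat.card (derivedSeries G (i + 1))) ^ 2) := by
            rw [pow_add]
            ring
        _ ≤ 2 ^ q * (Nat.card (derivedSeries G i)) ^ 2 := Nat.mul_le_mul_left _ hs
        _ ≤ _ := hq

theorem solv_nat [Finite G] [Nontrivial G] [Group.IsSolvable G] (X : Set G)
    (hX : Subgroup.closure X = ⊤) (g : G) :
    ∃ s r t q : ℕ, 4 * 2 ^ s ≤ (Nat.card G) ^ 2 ∧ 2 ^ r ≤ Nat.card G ∧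
      2 ^ t ≤ (Nat.card G) ^ 2 ∧ 2 ^ q ≤ (Nat.card G) ^ 2 ∧
      Got X (s + 3 * r + 6 * t + q) {g} := by
  classical
  obtain ⟨Y0, hY0X, hY0, hY0c⟩ := small_gen X hX
  have hl0 : Y0.toList ≠ [] := by
    intro h
    rw [Finset.toList_eq_nil] at h
    rw [h, Finset.coe_empty, Subgroup.closure_empty] at hY0
    exact bot_ne_top hY0
  obtain ⟨s, hs, hgot⟩ := (Got.base X).allInv' Y0.toList hl0
    (fun x hx => hY0X (Finset.mem_coe.mpr (Finset.mem_toList.mp hx)))
  rw [Finset.length_toList, zero_add] at hgot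
  obtain ⟨nn, hnn⟩ := Group.IsSolvable.solvable (G := G)
  have hlev := levels (X := X) (Y0 := (Y0 : Set G))
    (M0 := {m : G | m = 1 ∨ m ∈ Y0 ∨ m⁻¹ ∈ Y0}) (n0 := s + 3 * Y0.card)
    (fun y hy => Or.inr (Or.inl hy)) hY0 (Or.inl rfl)
    (by
      intro m hm
      rcases hm with rfl | hm | hm
      · exact Or.inl inv_one
      · right
        right
        simpa using hm
      · exact Or.inr (Or.inl hm))
    Y0.finite_toSet
    (by
      refine hgot.mono le_rfl ?_
      intro u hu
      rcases hu with hu | hu | hu | hu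
      · exact Or.inr (Or.inl hu)
      · exact Or.inl hu
      · exact Or.inr (Or.inl (hY0X hu))
      · exact Or.inr (Or.inr ⟨u⁻¹, Finset.mem_toList.mpr hu, by simp⟩))
    nn
  obtain ⟨t, q, Y, M, _, _, _, _, _, hgotM, ht, hE, hq⟩ := hlev
  refine ⟨s, Y0.card, t, q, hs, hY0c, ?_, ?_, ?_⟩
  · have h1 : 0 < Nat.card (derivedSeries G (nn + 1)) * Nat.card (derivedSeries G (nn + 2)) :=
      Nat.mul_pos Nat.card_pos Nat.card_pos
    exact (Nat.le_mul_of_pos_right _ h1).trans ht
  · have h1 : 0 < (Nat.card (derivedSeries G nn)) ^ 2 := Nat.pow_pos Nat.card_pos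
    exact (Nat.le_mul_of_pos_right _ h1).trans hq
  · obtain ⟨u, hu, hcost⟩ := hE g
    rw [hnn, Subgroup.mem_bot] at hu
    have hug : u = g := (inv_mul_eq_one.mp hu)
    have h1 := hcost _ _ Set.subset_union_right hgotM
    rw [hug] at h1
    refine h1.mono (by omega) ?_
    intro w hw
    rw [Set.mem_singleton_iff] at hw
    exact Or.inl hw

theorem solv_real [Finite G] [Nontrivial G] [Group.IsSolvable G] (X : Set G)
    (hX : Subgroup.closure X = ⊤) (g : G) :
    ∃ n : ℕ, (n : ℝ) ≤ 19 * Real.logb 2 (Nat.card G) - 2 ∧ Got X n {g} := by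
  obtain ⟨s, r, t, q, hs, hr, ht, hq, hgot⟩ := solv_nat X hX g
  refine ⟨_, ?_, hgot⟩
  set L := Real.logb 2 (Nat.card G) with hL
  have hGpos : (0 : ℝ) < Nat.card G := by
    have : 0 < Nat.card G := Nat.card_pos
    exact_mod_cast this
  have hr' : (r : ℝ) ≤ L := by
    rw [hL, Real.le_logb_iff_rpow_le (by norm_num) hGpos, Real.rpow_natCast]
    exact_mod_cast hr
  have hsq : ∀ t : ℕ, 2 ^ t ≤ (Nat.card G) ^ 2 → (t : ℝ) ≤ 2 * L := by
    intro t ht
    have h5 : (t : ℝ) ≤ Real.logb 2 ((Nat.card G : ℝ) ^ 2) := by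
      rw [Real.le_logb_iff_rpow_le (by norm_num) (by positivity), Real.rpow_natCast]
      exact_mod_cast ht
    have h6 : Real.logb 2 ((Nat.card G : ℝ) ^ 2) = 2 * L := by
      rw [Real.logb_pow]
      norm_num [hL]
    linarith
  have h1 := hsq t ht
  have h2 := hsq q hq
  have h3 := hsq (s + 2) (by rw [pow_add]; omega)
  push_cast at h3 ⊢
  linarith

end Pool.Agent.Slp57
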