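import Pool.Agent.Slp57.Main

set_option autoImplicit false

namespace Pool.Agent.Slp57

variable {G : Type*} [Group G]

/-- All suffix products of a list. -/
theorem Got.suffixes {X T : Set G} {n : ℕ} (h : Got X n T) (h1 : (1 : G) ∈ T) (l : List G)
    (hl : ∀ x ∈ l, x ∈ T) :
    Got X (n + l.length) (T ∪ {g | ∃ s : List G, s <:+ l ∧ s.prod = g}) := by
  induction l with
  | nil =>
    refine h.mono (by simp) ?_
    intro t ht
    rcases ht with ht | ⟨s, hs, rfl⟩
    · exact ht
    · rw [List.suffix_nil] at hs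
      subst hs
      simpa using h1
  | cons a l ih =>
    have h2 := ih (fun x hx => hl x (List.mem_cons_of_mem _ hx))
    have h3 := h2.mul (a := a) (b := l.prod) (Or.inl (hl a (by simp)))
      (Or.inr ⟨l, List.suffix_refl l, rfl⟩)
    refine h3.mono (by simp [add_assoc]) ?_
    intro t ht
    rcases ht with ht | ⟨s, hs, rfl⟩
    · exact Or.inr (Or.inl ht)
    · rcases List.suffix_cons_iff.mp hs with h | h
      · left
        rw [h, List.prod_cons]
      · exact Or.inr (Or.inr ⟨s, h, rfl⟩)

/-- Montgomery's trick: all inverses from one inverse. -/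
theorem Got.inverses {X : Set G} (l : List G) : ∀ (T : Set G) (n : ℕ), Got X n T →
    (∀ x ∈ l, x ∈ T) → (∀ s : List G, s <:+ l → s.prod ∈ T) → l.prod⁻¹ ∈ T →
    Got X (n + 2 * l.length) (T ∪ {g | ∃ x ∈ l, g = x⁻¹}) := by
  induction l with
  | nil =>
    intro T n h _ _ _
    refine h.mono (by simp) ?_
    intro t ht
    rcases ht with ht | ⟨x, hx, _⟩
    · exact ht
    · simp at hx
  | cons a l ih =>
    intro T n h hl hs hp
    have h1 := h.mul (a := l.prod) (b := (a :: l).prod⁻¹) (hs l (List.suffix_cons a l)) hp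
    have h2 := h1.mul (a := (a :: l).prod⁻¹) (b := a) (Or.inr hp) (Or.inr (hl a (by simp)))
    have e1 : l.prod * (a :: l).prod⁻¹ = a⁻¹ := by
      rw [List.prod_cons, mul_inv_rev]
      simp
    have e2 : (a :: l).prod⁻¹ * a = l.prod⁻¹ := by
      rw [List.prod_cons, mul_inv_rev]
      simp
    rw [e1] at h2
    rw [e2] at h2
    have h3 := ih _ _ h2 (fun x hx => Or.inr (Or.inr (hl x (List.mem_cons_of_mem _ hx))))
      (fun s hs' => Or.inr (Or.inr (hs s (hs'.trans (List.suffix_cons a l))))) (Or.inl rfl)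
    refine h3.mono (by simp; omega) ?_
    intro t ht
    rcases ht with ht | ⟨x, hx, rfl⟩
    · exact Or.inl (Or.inr (Or.inr ht))
    · rcases List.mem_cons.mp hx with rfl | hx
      · exact Or.inl (Or.inr (Or.inl rfl))
      · exact Or.inr ⟨x, hx, rfl⟩

/-- All inverses of the entries of a list. -/
theorem Got.allInv [Finite G] [Nontrivial G] {X T : Set G} {n : ℕ} (h : Got X n T)
    (h1 : (1 : G) ∈ T) (l : List G) (hl : ∀ x ∈ l, x ∈ T) :
    ∃ s : ℕ, 2 ^ s ≤ (Nat.card G) ^ 2 ∧
      Got X (n + s + 3 * l.length) (T ∪ {g | ∃ x ∈ l, g = x⁻¹}) := by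
  have hG2 : 2 ≤ Nat.card G := Finite.one_lt_card
  obtain ⟨s, hs, hpow⟩ := pow_cost (G := G) (Nat.card G - 1) (by omega)
  have e : Nat.card G - 1 + 1 = Nat.card G := by omega
  rw [e] at hs
  refine ⟨s, by omega, ?_⟩
  have g1 := h.suffixes h1 l hl
  have g2 := hpow _ _ _ l.prod g1 (Or.inr ⟨l, List.suffix_refl l, rfl⟩)
  have e2 : l.prod ^ (Nat.card G - 1) = l.prod⁻¹ := by
    rw [eq_inv_iff_mul_eq_one, ← pow_succ, e, pow_card_eq_one']
  rw [e2] at g2
  have g3 := Got.inverses l _ _ g2 (fun x hx => Or.inr (Or.inl (hl x hx)))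
    (fun s hs => Or.inr (Or.inr ⟨s, hs, rfl⟩)) (Or.inl rfl)
  refine g3.mono (by omega) ?_
  intro t ht
  rcases ht with ht | ht
  · exact Or.inl (Or.inr (Or.inl ht))
  · exact Or.inr ht

/-- A generating subset of at most `log₂ |G|` elements. -/
theorem small_gen [Finite G] (X : Set G) (hX : Subgroup.closure X = ⊤) :
    ∃ Y : Finset G, (Y : Set G) ⊆ X ∧ Subgroup.closure (Y : Set G) = ⊤ ∧
      2 ^ Y.card ≤ Nat.card G := by
  classical
  by_contra hno
  have hall : ∀ t : ℕ, ∃ Y : Finset G, (Y : Set G) ⊆ X ∧ Y.card = t ∧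
      2 ^ t ≤ Nat.card (Subgroup.closure (Y : Set G)) := by
    intro t
    induction t with
    | zero =>
      refine ⟨∅, by simp, by simp, ?_⟩
      have : 0 < Nat.card (Subgroup.closure ((∅ : Finset G) : Set G)) := Nat.card_pos
      simpa using this
    | succ t ih =>
      obtain ⟨Y, hYX, hYt, hcard⟩ := ih
      have hle : Nat.card (Subgroup.closure (Y : Set G)) ≤ Nat.card G :=
        Nat.le_of_dvd Nat.card_pos (Subgroup.card_subgroup_dvd_card _)
      have hne : Subgroup.closure (Y : Set G) ≠ ⊤ := by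
        intro h
        exact hno ⟨Y, hYX, h, by rw [hYt]; omega⟩
      have hex : ∃ x ∈ X, x ∉ Subgroup.closure (Y : Set G) := by
        by_contra hc
        push Not at hc
        apply hne
        rw [eq_top_iff, ← hX, Subgroup.closure_le]
        exact hc
      obtain ⟨x, hxX, hx⟩ := hex
      have hxY : x ∉ Y := fun h => hx (Subgroup.subset_closure h)
      refine ⟨insert x Y, ?_, by rw [Finset.card_insert_of_notMem hxY, hYt], ?_⟩
      · rw [Finset.coe_insert]
        exact Set.insert_subset hxX hYX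
      · have h := card_step (Subgroup.closure (Y : Set G))
          (Subgroup.closure ((insert x Y : Finset G) : Set G))
          (Subgroup.closure_mono (by simp)) x
          (Subgroup.subset_closure (by simp)) 2 (by
            intro i h0 h2
            have : i = 1 := by omega
            rw [this, pow_one]
            exact hx)
        rw [pow_succ]
        omega
  obtain ⟨Y, _, _, h⟩ := hall (Nat.card G)
  have h2 : Nat.card (Subgroup.closure (Y : Set G)) ≤ Nat.card G :=
    Nat.le_of_dvd Nat.card_pos (Subgroup.card_subgroup_dvd_card _)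
  have h3 : Nat.card G < 2 ^ Nat.card G := Nat.lt_two_pow_self
  omega

end Pool.Agent.Slp57
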