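import Pool.Agent.Slp57.State

set_option autoImplicit false

open scoped Pointwise

namespace Pool.Agent.Slp57

variable {G : Type*} [Group G]

theorem St.one_mem {X : Set G} {n0 b k s : ℕ} {Y P : Set G} {B : Finset G} {M : Set G}
    (st : St X n0 b k s Y P B M) : (1 : G) ∈ Q P B := by
  have h : (1 : G) ∈ P * (B : Set G) :=
    Set.mem_mul.mpr ⟨1, st.P1, 1, Finset.mem_coe.mpr st.B1, by simp⟩
  exact Set.mem_mul.mpr ⟨1, Set.mem_inv.mpr (by rw [inv_one]; exact h), 1, h, by simp⟩

theorem St.Q_sub {X : Set G} {n0 b k s : ℕ} {Y P : Set G} {B : Finset G} {M : Set G}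
    (st : St X n0 b k s Y P B M) (a : G) (ha : a ∈ Q P B) : a ∈ Subgroup.closure Y := by
  obtain ⟨u, hu, v, hv, rfl⟩ := Set.mem_mul.mp ha
  refine Subgroup.mul_mem _ ?_ (st.sub hv)
  have h := st.sub (Set.mem_inv.mp hu)
  have h2 := Subgroup.inv_mem _ h
  simpa using h2

/-- The powers of `x` below its first return to `H` give disjoint cosets. -/
theorem card_step [Finite G] (H K : Subgroup G) (hHK : H ≤ K) (x : G) (hx : x ∈ K) (m : ℕ)
    (hm : ∀ i, 0 < i → i < m → x ^ i ∉ H) : Nat.card H * m ≤ Nat.card K := by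
  have key : ∀ (h h' : G) (i j : ℕ), h ∈ H → h' ∈ H → i < m → j < m → i ≤ j →
      h * x ^ i = h' * x ^ j → i = j := by
    intro h h' i j hh hh' hi hj hij heq
    by_contra hne
    have hlt : i < j := lt_of_le_of_ne hij hne
    apply hm (j - i) (by omega) (by omega)
    have h1 : x ^ j = x ^ (j - i) * x ^ i := by
      rw [← pow_add]
      congr 1
      omega
    rw [h1, ← mul_assoc] at heq
    have h2 : h = h' * x ^ (j - i) := mul_right_cancel heq
    have h3 : x ^ (j - i) = h'⁻¹ * h := by rw [h2]; simp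
    rw [h3]
    exact H.mul_mem (H.inv_mem hh') hh
  have hinj : Function.Injective
      (fun p : H × Fin m => (⟨(p.1 : G) * x ^ (p.2 : ℕ),
        K.mul_mem (hHK p.1.2) (K.pow_mem hx _)⟩ : K)) := by
    rintro ⟨⟨h, hh⟩, ⟨i, hi⟩⟩ ⟨⟨h', hh'⟩, ⟨j, hj⟩⟩ heq
    simp only [Subtype.mk.injEq] at heq
    have hij : i = j := by
      rcases le_total i j with hle | hle
      · exact key h h' i j hh hh' hi hj hle heq
      · exact (key h' h j i hh' hh hj hi hle heq.symm).symm
    subst hij
    have h2 : h = h' := mul_right_cancel heq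
    subst h2
    rfl
  have h := Nat.card_le_card_of_injective _ hinj
  rw [Nat.card_prod, Nat.card_fin] at h
  exact h

theorem St.step [Finite G] {X : Set G} (hX : Subgroup.closure X = ⊤) {n0 b k s : ℕ}
    {Y P : Set G} {B : Finset G} {M : Set G}
    (st : St X n0 b k s Y P B M) (hb : 0 < b) (g : G) (hg : g ∉ Q P B) :
    ∃ (s' : ℕ) (Y' P' : Set G) (B' : Finset G) (M' : Set G),
      St X n0 b (k + 1) s' Y' P' B' M' := by
  classical
  have h1M : (1 : G) ∈ X ∪ M := Or.inr st.one
  by_cases hcase : ∃ a ∈ Q P B, ∃ x ∈ Y, a * x ∉ Q P B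
  · obtain ⟨a, ha, x, hx, hax⟩ := hcase
    obtain ⟨l1, hl1, hl1M, hl1p⟩ := st.Qlist a ha
    have hlM : ∀ z ∈ l1 ++ [x], z ∈ M := by
      intro z hz
      rcases List.mem_append.mp hz with h | h
      · exact hl1M z h
      · rw [List.mem_singleton] at h
        rw [h]
        exact st.YM hx
    have hlp : (l1 ++ [x]).prod = a * x := by simp [hl1p]
    have hll : (l1 ++ [x]).length ≤ 2 * (k / b + 1) + 1 := by
      rw [List.length_append]
      simpa using hl1
    obtain ⟨l2, hl2, hl2M, hl2p⟩ := inv_list st.inv _ hlM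
    have g1 := st.got.list h1M _ (fun z hz => Or.inr (hlM z hz))
    have g2 := g1.list (Or.inr h1M) _ (fun z hz => Or.inr (Or.inr (hl2M z hz)))
    rw [hlp] at g1 g2 hl2p
    rw [hl2p] at g2
    have hgot : Got X (n0 + F b k + s + (4 * (k / b + 1) + 2))
        (X ∪ (insert (a * x) (insert (a * x)⁻¹ M))) := by
      refine g2.mono (by omega) ?_
      intro t ht
      rcases ht with ht | ht | ht | ht
      · exact Or.inr (Or.inr (Or.inl ht))
      · rw [ht]; exact Or.inr (Or.inl rfl)
      · rw [ht]; exact Or.inl rfl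
      · exact Or.inr (Or.inr (Or.inr ht))
    obtain ⟨P', B', M', h⟩ := st.grow hb Y (insert (a * x) (insert (a * x)⁻¹ M)) s
      (n0 + F b k + s + (4 * (k / b + 1) + 2)) (Set.Subset.refl Y) st.YX
      (fun z hz => Or.inr (Or.inr hz)) (fun z hz => Or.inr (Or.inr (st.YM hz)))
      (by
        intro m hm
        rcases hm with rfl | hm | hm
        · exact Or.inr (Or.inl rfl)
        · rw [hm, inv_inv]
          exact Or.inl rfl
        · exact Or.inr (Or.inr (st.inv m hm)))
      (a * x) (Or.inl rfl) hax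
      (Subgroup.mul_mem _ (st.Q_sub a ha) (Subgroup.subset_closure hx))
      hgot (by simp only [F]; omega) st.pot
    exact ⟨s, Y, P', B', M', h⟩
  · push Not at hcase
    -- `Q` is the subgroup generated by `Y`
    let N : Submonoid G :=
      { carrier := {g | ∀ a ∈ Q P B, a * g ∈ Q P B}
        one_mem' := by
          intro a ha
          simpa using ha
        mul_mem' := by
          intro u v hu hv a ha
          rw [← mul_assoc]
          exact hv _ (hu a ha) }
    have hYN : Submonoid.closure Y ≤ N := by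
      rw [Submonoid.closure_le]
      intro x hx a ha
      exact hcase a ha x hx
    have hHQ : ∀ h ∈ Subgroup.closure Y, h ∈ Q P B := by
      intro h hh
      have h1 : h ∈ Submonoid.closure Y := by
        rw [← Subgroup.closure_toSubmonoid_of_finite]
        exact hh
      have h2 := hYN h1 1 st.one_mem
      simpa using h2
    have hex : ∃ x ∈ X, x ∉ Subgroup.closure Y := by
      by_contra hno
      push Not at hno
      have h1 : Subgroup.closure X ≤ Subgroup.closure Y := by
        rw [Subgroup.closure_le]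
        exact hno
      rw [hX] at h1
      exact hg (hHQ g (h1 (Subgroup.mem_top g)))
    obtain ⟨x, hxX, hxH⟩ := hex
    have hexm : ∃ m : ℕ, 0 < m ∧ x ^ m ∈ Subgroup.closure Y := by
      refine ⟨orderOf x, orderOf_pos x, ?_⟩
      rw [pow_orderOf_eq_one]
      exact Subgroup.one_mem _
    set m := Nat.find hexm with hmdef
    have hm1 : 0 < m ∧ x ^ m ∈ Subgroup.closure Y := Nat.find_spec hexm
    have hmin : ∀ i, 0 < i → i < m → x ^ i ∉ Subgroup.closure Y := by
      intro i hi him hmem
      exact Nat.find_min hexm him ⟨hi, hmem⟩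
    have hm2 : 2 ≤ m := by
      by_contra hlt
      have : m = 1 := by omega
      rw [this, pow_one] at hm1
      exact hxH hm1.2
    obtain ⟨sm, hsm, hpow⟩ := pow_cost (G := G) (m - 1) (by omega)
    have hm11 : m - 1 + 1 = m := by omega
    rw [hm11] at hsm
    have g1 := hpow X (X ∪ M) _ x st.got (Or.inl hxX)
    obtain ⟨l, hl, hlM, hlp⟩ := st.Qlist (x ^ m)⁻¹ (hHQ _ (Subgroup.inv_mem _ hm1.2))
    have g2 := g1.list (Or.inr h1M) l (fun z hz => Or.inr (Or.inr (hlM z hz)))
    rw [hlp] at g2
    have g3 := g2.mul (a := x ^ (m - 1)) (b := (x ^ m)⁻¹) (Or.inr (Or.inl rfl)) (Or.inl rfl)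
    have hxinv : x ^ (m - 1) * (x ^ m)⁻¹ = x⁻¹ := by
      have : x ^ m = x * x ^ (m - 1) := by
        rw [← pow_succ', hm11]
      rw [this, mul_inv_rev]
      simp
    rw [hxinv] at g3
    have hgot : Got X (n0 + F b k + s + sm + 2 * (k / b + 1) + 1)
        (X ∪ (insert x (insert x⁻¹ M))) := by
      refine g3.mono (by omega) ?_
      intro t ht
      rcases ht with ht | ht | ht | ht
      · exact Or.inr (Or.inr (Or.inr (Or.inl ht)))
      · rw [ht]; exact Or.inr (Or.inr (Or.inr (Or.inl hxX)))
      · rw [ht]; exact Or.inl rfl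
      · exact Or.inr (Or.inr (Or.inr (Or.inr ht)))
    have hcard := card_step (Subgroup.closure Y) (Subgroup.closure (insert x Y))
      (Subgroup.closure_mono (Set.subset_insert _ _)) x
      (Subgroup.subset_closure (Set.mem_insert _ _)) m hmin
    obtain ⟨P', B', M', h⟩ := st.grow hb (insert x Y) (insert x (insert x⁻¹ M)) (s + sm)
      (n0 + F b k + s + sm + 2 * (k / b + 1) + 1) (Set.subset_insert _ _)
      (Set.insert_subset hxX st.YX)
      (fun z hz => Or.inr (Or.inr hz))
      (by
        intro z hz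
        rcases hz with rfl | hz
        · exact Or.inl rfl
        · exact Or.inr (Or.inr (st.YM hz)))
      (by
        intro z hz
        rcases hz with rfl | hz | hz
        · exact Or.inr (Or.inl rfl)
        · rw [hz, inv_inv]
          exact Or.inl rfl
        · exact Or.inr (Or.inr (st.inv z hz)))
      x (Or.inl rfl) (fun hxQ => hxH (st.Q_sub x hxQ))
      (Subgroup.subset_closure (Set.mem_insert _ _))
      hgot (by simp only [F]; omega)
      (by
        have h1 := st.pot
        have h2 : 2 ^ sm ≤ m ^ 2 := by omega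
        calc 2 ^ (s + sm) = 2 ^ s * 2 ^ sm := pow_add _ _ _
          _ ≤ (Nat.card (Subgroup.closure Y)) ^ 2 * m ^ 2 := Nat.mul_le_mul h1 h2
          _ = (Nat.card (Subgroup.closure Y) * m) ^ 2 := by ring
          _ ≤ _ := Nat.pow_le_pow_left hcard 2)
    exact ⟨s + sm, insert x Y, P', B', M', h⟩

theorem main_nat [Finite G] [Nontrivial G] (X : Set G) (hX : Subgroup.closure X = ⊤) (b : ℕ)
    (hb : 0 < b) (g : G) : ∃ n0 k s : ℕ, 2 ^ n0 ≤ (Nat.card G) ^ 2 ∧ 2 ^ k ≤ Nat.card G ∧
      2 ^ s ≤ (Nat.card G) ^ 2 ∧ Got X (n0 + F b k + s + 2 * (k / b + 1)) {g} := by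
  classical
  have hne : X.Nonempty := by
    by_contra h
    rw [Set.not_nonempty_iff_eq_empty] at h
    rw [h, Subgroup.closure_empty] at hX
    exact bot_ne_top hX
  obtain ⟨x, hx⟩ := hne
  have he : 1 ≤ orderOf x := orderOf_pos x
  have heG : orderOf x ≤ Nat.card G := Nat.le_of_dvd Nat.card_pos (orderOf_dvd_natCard x)
  obtain ⟨s0, hs0, hpow⟩ := pow_cost (G := G) (orderOf x) he
  have g0 := hpow X X 0 x (Got.base X) hx
  rw [pow_orderOf_eq_one, zero_add] at g0
  have hs0' : 2 ^ s0 ≤ (Nat.card G) ^ 2 := by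
    have : (orderOf x) ^ 2 ≤ (Nat.card G) ^ 2 := Nat.pow_le_pow_left heG 2
    nlinarith
  have hinit : St X s0 b 0 0 ∅ {1} {1} {1} := by
    refine ⟨?_, rfl, ?_, by simp, by simp, rfl, ?_, ?_, by simp, by simp, ?_, ?_, ?_⟩
    · refine g0.mono (by simp [F]) ?_
      intro t ht
      rcases ht with ht | ht
      · exact Or.inr ht
      · exact Or.inl ht
    · intro m hm
      rw [Set.mem_singleton_iff] at hm
      simp [hm]
    · intro p hp
      rw [Set.mem_singleton_iff] at hp
      exact ⟨[], by simp, by simp, by simp [hp]⟩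
    · intro z hz
      rw [Finset.mem_singleton] at hz
      exact hz
    · simp
    · intro z hz
      simp only [Finset.coe_singleton, Set.singleton_mul_singleton, mul_one,
        Set.mem_singleton_iff] at hz
      rw [hz]
      exact Subgroup.one_mem _
    · have : 0 < Nat.card (Subgroup.closure (∅ : Set G)) := Nat.card_pos
      simpa using Nat.one_le_pow 2 _ this
  have hfin : ∃ (k s : ℕ) (Y P : Set G) (B : Finset G) (M : Set G),
      St X s0 b k s Y P B M ∧ ∀ g, g ∈ Q P B := by
    by_contra hno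
    push Not at hno
    have hall : ∀ k, ∃ (s : ℕ) (Y P : Set G) (B : Finset G) (M : Set G),
        St X s0 b k s Y P B M := by
      intro k
      induction k with
      | zero => exact ⟨0, _, _, _, _, hinit⟩
      | succ k ih =>
        obtain ⟨s, Y, P, B, M, st⟩ := ih
        obtain ⟨g', hg'⟩ := hno k s Y P B M st
        exact st.step hX hb g' hg'
    obtain ⟨s, Y, P, B, M, st⟩ := hall (Nat.card G)
    have h1 := st.card
    have h2 : (P * (B : Set G)).ncard ≤ Nat.card G := Set.ncard_le_card _
    have h3 : Nat.card G < 2 ^ Nat.card G := Nat.lt_two_pow_self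
    omega
  obtain ⟨k, s, Y, P, B, M, st, hQ⟩ := hfin
  refine ⟨s0, k, s, hs0', st.card.trans (Set.ncard_le_card _), ?_, ?_⟩
  · refine st.pot.trans (Nat.pow_le_pow_left ?_ 2)
    exact Nat.le_of_dvd Nat.card_pos (Subgroup.card_subgroup_dvd_card _)
  · obtain ⟨l, hl, hlM, hlp⟩ := st.Qlist g (hQ g)
    have g1 := st.got.list (Or.inr st.one) l (fun z hz => Or.inr (hlM z hz))
    rw [hlp] at g1
    refine g1.mono (by omega) ?_
    intro t ht
    rw [Set.mem_singleton_iff] at ht
    exact Or.inl ht

end Pool.Agent.Slp57
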