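import Pool.Agent.Slp57.Solv

set_option autoImplicit false

open scoped commutatorElement

namespace Pool.Agent.Slp57

variable {G : Type*} [Group G]

/-- Build generators of `D` modulo `N`. -/
theorem make [Finite G] {X M : Set G} {Y Y0 : Set G} {n : ℕ}
    (hY0M : Y0 ⊆ M) (hY0 : Subgroup.closure Y0 = ⊤) (hinv : ∀ m ∈ M, m⁻¹ ∈ M)
    (hYM : Y ⊆ M) (N D : Subgroup G) (hN : N.Normal) (hD : D.Normal) (hND : N ≤ D)
    (hcommD : ∀ a ∈ Y, ∀ b ∈ Y, ⁅a, b⁆ ∈ D)
    (hkey : ∀ K : Subgroup G, K.Normal → (∀ a ∈ Y, ∀ b ∈ Y, ⁅a, b⁆ ∈ K) → D ≤ K)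
    (hgot : Got X n (X ∪ M)) :
    ∃ (t : ℕ) (Y' : Finset G) (M' : Set G), M ⊆ M' ∧ (∀ m ∈ M', m⁻¹ ∈ M') ∧
      (∀ y ∈ Y', y ∈ D) ∧ (∀ y ∈ Y', y ∈ M') ∧
      (Subgroup.closure (Y' : Set G) ⊔ N : Subgroup G) = D ∧
      Got X (n + 6 * t) (X ∪ M') ∧ 2 ^ t * Nat.card N ≤ Nat.card D := by
  classical
  by_contra hno
  have hall : ∀ t : ℕ, ∃ (Y' : Finset G) (M' : Set G), M ⊆ M' ∧ (∀ m ∈ M', m⁻¹ ∈ M') ∧
      (∀ y ∈ Y', y ∈ D) ∧ (∀ y ∈ Y', y ∈ M') ∧
      Got X (n + 6 * t) (X ∪ M') ∧
      2 ^ t * Nat.card N ≤ Nat.card (Subgroup.closure (Y' : Set G) ⊔ N : Subgroup G) := by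
    intro t
    induction t with
    | zero =>
      refine ⟨∅, M, Set.Subset.refl M, hinv, by simp, by simp, by simpa using hgot, ?_⟩
      rw [Finset.coe_empty, Subgroup.closure_empty, bot_sup_eq]
      simp
    | succ t ih =>
      obtain ⟨Y', M', hMM', hinv', hYD, hYM', hgot', hcard⟩ := ih
      set K : Subgroup G := Subgroup.closure (Y' : Set G) ⊔ N with hK
      have hKD : K ≤ D := by
        apply sup_le _ hND
        rw [Subgroup.closure_le]
        intro y hy
        exact hYD y hy
      have hne : K ≠ D := by
        intro h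
        refine hno ⟨t, Y', M', hMM', hinv', hYD, hYM', h, hgot', ?_⟩
        rw [← h]
        exact hcard
      -- a new element
      have hnew : ∃ z : G, z ∈ D ∧ z ∉ K ∧
          Got X (n + 6 * t + 6) (insert z (insert z⁻¹ (X ∪ M'))) := by
        by_cases hc1 : ∃ a ∈ Y, ∃ b ∈ Y, ⁅a, b⁆ ∉ K
        · obtain ⟨a, ha, b, hb, hab⟩ := hc1
          refine ⟨⁅a, b⁆, hcommD a ha b hb, hab, ?_⟩
          have ma : a ∈ X ∪ M' := Or.inr (hMM' (hYM ha))
          have mb : b ∈ X ∪ M' := Or.inr (hMM' (hYM hb))
          have mai : a⁻¹ ∈ X ∪ M' := Or.inr (hinv' _ (hMM' (hYM ha)))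
          have mbi : b⁻¹ ∈ X ∪ M' := Or.inr (hinv' _ (hMM' (hYM hb)))
          have g1 := hgot'.mul ma mb
          have g2 := g1.mul (a := a * b) (b := a⁻¹) (Or.inl rfl) (Or.inr mai)
          have g3 := g2.mul (a := a * b * a⁻¹) (b := b⁻¹) (Or.inl rfl) (Or.inr (Or.inr mbi))
          have g4 := g3.mul (a := b) (b := a) (Or.inr (Or.inr (Or.inr mb)))
            (Or.inr (Or.inr (Or.inr ma)))
          have g5 := g4.mul (a := b * a) (b := b⁻¹) (Or.inl rfl)
            (Or.inr (Or.inr (Or.inr (Or.inr mbi))))
          have g6 := g5.mul (a := b * a * b⁻¹) (b := a⁻¹) (Or.inl rfl)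
            (Or.inr (Or.inr (Or.inr (Or.inr (Or.inr mai)))))
          refine g6.mono (by omega) ?_
          intro u hu
          rcases hu with hu | hu | hu
          · rw [hu, commutatorElement_def]
            exact Or.inr (Or.inr (Or.inr (Or.inl rfl)))
          · rw [hu, commutatorElement_inv, commutatorElement_def]
            exact Or.inl rfl
          · exact Or.inr (Or.inr (Or.inr (Or.inr (Or.inr (Or.inr hu)))))
        · push Not at hc1
          by_cases hc2 : ∃ y ∈ Y', ∃ x ∈ Y0, x⁻¹ * y * x ∉ K
          · obtain ⟨y, hy, x, hx, hyx⟩ := hc2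
            refine ⟨x⁻¹ * y * x, ?_, hyx, ?_⟩
            · have h := hD.conj_mem y (hYD y hy) x⁻¹
              simpa using h
            have mx : x ∈ X ∪ M' := Or.inr (hMM' (hY0M hx))
            have mxi : x⁻¹ ∈ X ∪ M' := Or.inr (hinv' _ (hMM' (hY0M hx)))
            have my : y ∈ X ∪ M' := Or.inr (hYM' y hy)
            have myi : y⁻¹ ∈ X ∪ M' := Or.inr (hinv' _ (hYM' y hy))
            have g1 := hgot'.mul mxi my
            have g2 := g1.mul (a := x⁻¹ * y) (b := x) (Or.inl rfl) (Or.inr mx)
            have g3 := g2.mul (a := x⁻¹) (b := y⁻¹) (Or.inr (Or.inr mxi)) (Or.inr (Or.inr myi))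
            have g4 := g3.mul (a := x⁻¹ * y⁻¹) (b := x) (Or.inl rfl) (Or.inr (Or.inr (Or.inr mx)))
            refine g4.mono (by omega) ?_
            intro u hu
            rcases hu with hu | hu | hu
            · rw [hu]
              exact Or.inr (Or.inr (Or.inl rfl))
            · rw [hu]
              have : (x⁻¹ * y * x)⁻¹ = x⁻¹ * y⁻¹ * x := by group
              rw [this]
              exact Or.inl rfl
            · exact Or.inr (Or.inr (Or.inr (Or.inr hu)))
          · exfalso
            push Not at hc2
            -- `K` is normal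
            have hconj : ∀ x ∈ Y0, ∀ k ∈ K, x⁻¹ * k * x ∈ K := by
              intro x hx
              have hle : K ≤ K.comap (MulAut.conj x⁻¹).toMonoidHom := by
                rw [hK]
                apply sup_le
                · rw [Subgroup.closure_le]
                  intro y hy
                  have h := hc2 y hy x hx
                  simpa [Subgroup.mem_comap, MulAut.conj_apply] using h
                · intro k hk
                  rw [Subgroup.mem_comap]
                  have h := hN.conj_mem k hk x⁻¹
                  exact (le_sup_right : N ≤ Subgroup.closure (Y' : Set G) ⊔ N) (by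
                    simpa [MulAut.conj_apply] using h)
              intro k hk
              have h := hle hk
              rw [Subgroup.mem_comap] at h
              simpa [MulAut.conj_apply] using h
            let S : Submonoid G :=
              { carrier := {g | ∀ k ∈ K, g⁻¹ * k * g ∈ K}
                one_mem' := by
                  intro k hk
                  simpa using hk
                mul_mem' := by
                  intro u v hu hv k hk
                  have h := hv _ (hu k hk)
                  have e : (u * v)⁻¹ * k * (u * v) = v⁻¹ * (u⁻¹ * k * u) * v := by group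
                  rw [e]
                  exact h }
            have hS : ∀ g : G, g ∈ S := by
              intro g
              have h1 : Submonoid.closure Y0 ≤ S := by
                rw [Submonoid.closure_le]
                exact hconj
              apply h1
              rw [← Subgroup.closure_toSubmonoid_of_finite, hY0]
              exact Subgroup.mem_top g
            have hKn : K.Normal := by
              constructor
              intro k hk g
              have h := hS g⁻¹ k hk
              simpa using h
            exact hne (le_antisymm hKD (hkey K hKn hc1))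
      obtain ⟨z, hzD, hzK, hzgot⟩ := hnew
      refine ⟨insert z Y', insert z (insert z⁻¹ M'), ?_, ?_, ?_, ?_, ?_, ?_⟩
      · exact fun u hu => Or.inr (Or.inr (hMM' hu))
      · intro m hm
        rcases hm with rfl | hm | hm
        · exact Or.inr (Or.inl rfl)
        · rw [hm, inv_inv]
          exact Or.inl rfl
        · exact Or.inr (Or.inr (hinv' m hm))
      · intro y hy
        rcases Finset.mem_insert.mp hy with rfl | hy
        · exact hzD
        · exact hYD y hy
      · intro y hy
        rcases Finset.mem_insert.mp hy with rfl | hy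
        · exact Or.inl rfl
        · exact Or.inr (Or.inr (hYM' y hy))
      · refine hzgot.mono (by omega) ?_
        intro u hu
        rcases hu with hu | hu | hu | hu
        · exact Or.inr (Or.inr (Or.inl hu))
        · exact Or.inl hu
        · exact Or.inr (Or.inl hu)
        · exact Or.inr (Or.inr (Or.inr hu))
      · have h := card_step K
          (Subgroup.closure ((insert z Y' : Finset G) : Set G) ⊔ N : Subgroup G)
          (sup_le_sup_right (Subgroup.closure_mono (by simp)) N) z
          ((le_sup_left : Subgroup.closure ((insert z Y' : Finset G) : Set G) ≤ _)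
            (Subgroup.subset_closure (by simp))) 2 (by
            intro i h0 h2
            have : i = 1 := by omega
            rw [this, pow_one]
            exact hzK)
        calc 2 ^ (t + 1) * Nat.card N = (2 ^ t * Nat.card N) * 2 := by rw [pow_succ]; ring
          _ ≤ Nat.card K * 2 := Nat.mul_le_mul_right _ hcard
          _ ≤ _ := h
  obtain ⟨Y', M', _, _, _, _, _, h⟩ := hall (Nat.card G)
  have h2 : Nat.card (Subgroup.closure (Y' : Set G) ⊔ N : Subgroup G) ≤ Nat.card G :=
    Nat.le_of_dvd Nat.card_pos (Subgroup.card_subgroup_dvd_card _)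
  have h3 : Nat.card G < 2 ^ Nat.card G := Nat.lt_two_pow_self
  have h4 : 0 < Nat.card N := Nat.card_pos
  have h5 : 2 ^ Nat.card G ≤ 2 ^ Nat.card G * Nat.card N := Nat.le_mul_of_pos_right _ h4
  omega

end Pool.Agent.Slp57
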