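import Pool.Agent.Slp57.Main

set_option autoImplicit false

open scoped Pointwise

namespace Pool.Agent.Slp57

variable {G : Type*} [Group G]

theorem perm_chain [Finite G] {X Z : Set G} (hZ : ∀ z ∈ Z, z ∈ X ∨ ∃ a ∈ X, ∃ b ∈ X, z = a * b)
    (hperm : ∀ K : Subgroup G, K ≤ Subgroup.closure Z → ∀ y ∈ Z,
      ∀ z ∈ Subgroup.closure (insert y (K : Set G)), ∃ e : ℕ, ∃ k ∈ K, z = y ^ e * k) :
    ∀ h ∈ Subgroup.closure Z, h ≠ 1 →
      ∃ N : ℕ, 2 ^ (N + 1) ≤ (Nat.card (Subgroup.closure Z)) ^ 2 ∧ Got X N {h} := by
  classical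
  have hfin : ∃ (t : ℕ) (Y : Finset G), Subgroup.closure (Y : Set G) = Subgroup.closure Z ∧
      Got X t (X ∪ (Y : Set G)) ∧
      ∀ z ∈ Subgroup.closure (Y : Set G), z ≠ 1 →
        ∃ n : ℕ, 2 ^ (n + t + 1) ≤ (Nat.card (Subgroup.closure (Y : Set G))) ^ 2 ∧
          ∀ (T : Set G) (n' : ℕ), X ∪ (Y : Set G) ⊆ T → Got X n' T →
            Got X (n' + n) (insert z T) := by
    by_contra hno
    have hall : ∀ t : ℕ, ∃ Y : Finset G, (Y : Set G) ⊆ Z ∧
        Got X t (X ∪ (Y : Set G)) ∧ 2 ^ t ≤ Nat.card (Subgroup.closure (Y : Set G)) ∧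
        ∀ z ∈ Subgroup.closure (Y : Set G), z ≠ 1 →
        ∃ n : ℕ, 2 ^ (n + t + 1) ≤ (Nat.card (Subgroup.closure (Y : Set G))) ^ 2 ∧
          ∀ (T : Set G) (n' : ℕ), X ∪ (Y : Set G) ⊆ T → Got X n' T →
            Got X (n' + n) (insert z T) := by
      intro t
      induction t with
      | zero =>
        refine ⟨∅, by simp, ?_, ?_, ?_⟩
        · simpa using Got.base X
        · have : 0 < Nat.card (Subgroup.closure ((∅ : Finset G) : Set G)) := Nat.card_pos
          simpa using this
        · intro z hz hz1
          rw [Finset.coe_empty, Subgroup.closure_empty, Subgroup.mem_bot] at hz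
          exact absurd hz hz1
      | succ t ih =>
        obtain ⟨Y, hYZ, hgot, hcard, hcost⟩ := ih
        have hne : ¬ Subgroup.closure Z ≤ Subgroup.closure (Y : Set G) := by
          intro h
          exact hno ⟨t, Y, le_antisymm (Subgroup.closure_mono hYZ) h, hgot, hcost⟩
        have hex : ∃ y ∈ Z, y ∉ Subgroup.closure (Y : Set G) := by
          by_contra hc
          push Not at hc
          apply hne
          rw [Subgroup.closure_le]
          exact hc
        obtain ⟨y, hyZ, hyK⟩ := hex
        set K := Subgroup.closure (Y : Set G) with hKdef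
        set K' := Subgroup.closure ((insert y Y : Finset G) : Set G) with hK'def
        have hK' : K' = Subgroup.closure (insert y (K : Set G)) := by
          rw [hK'def, Finset.coe_insert]
          apply le_antisymm
          · rw [Subgroup.closure_le]
            intro z hz
            rcases hz with rfl | hz
            · exact Subgroup.subset_closure (Set.mem_insert _ _)
            · exact Subgroup.subset_closure (Or.inr (Subgroup.subset_closure hz))
          · rw [Subgroup.closure_le]
            intro z hz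
            rcases hz with rfl | hz
            · exact Subgroup.subset_closure (Set.mem_insert _ _)
            · exact (Subgroup.closure_mono (Set.subset_insert _ _)) hz
        have hKK' : K ≤ K' := Subgroup.closure_mono (by simp)
        have hyK' : y ∈ K' := Subgroup.subset_closure (by simp)
        have hexm : ∃ m : ℕ, 0 < m ∧ y ^ m ∈ K := by
          refine ⟨orderOf y, orderOf_pos y, ?_⟩
          rw [pow_orderOf_eq_one]
          exact Subgroup.one_mem _
        set m := Nat.find hexm with hmdef
        have hm1 : 0 < m ∧ y ^ m ∈ K := Nat.find_spec hexm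
        have hmin : ∀ i, 0 < i → i < m → y ^ i ∉ K := by
          intro i hi him hmem
          exact Nat.find_min hexm him ⟨hi, hmem⟩
        have hcardK := card_step K K' hKK' y hyK' m hmin
        have hm2 : 2 ≤ m := by
          by_contra hlt
          have : m = 1 := by omega
          rw [this, pow_one] at hm1
          exact hyK hm1.2
        have hW2 : ∀ z ∈ K', ∃ e : ℕ, e < m ∧ ∃ k ∈ K, z = y ^ e * k := by
          intro z hz
          rw [hK'] at hz
          obtain ⟨e, k, hk, hz⟩ := hperm K (Subgroup.closure_mono hYZ) y hyZ z hz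
          refine ⟨e % m, Nat.mod_lt _ hm1.1, (y ^ m) ^ (e / m) * k,
            K.mul_mem (K.pow_mem hm1.2 _) hk, ?_⟩
          rw [hz, ← mul_assoc, ← pow_mul, ← pow_add, Nat.mod_add_div]
        have hsq : (Nat.card K) ^ 2 * m ^ 2 ≤ (Nat.card K') ^ 2 := by
          calc (Nat.card K) ^ 2 * m ^ 2 = (Nat.card K * m) ^ 2 := by ring
            _ ≤ _ := Nat.pow_le_pow_left hcardK 2
        have hKpos : 0 < Nat.card K := Nat.card_pos
        refine ⟨insert y Y, ?_, ?_, ?_, ?_⟩
        · rw [Finset.coe_insert]
          exact Set.insert_subset hyZ hYZ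
        · rcases hZ y hyZ with h | ⟨a, ha, b, hb, hab⟩
          · refine hgot.mono (by omega) ?_
            intro u hu
            rw [Finset.coe_insert] at hu
            rcases hu with hu | hu | hu
            · exact Or.inl hu
            · rw [hu]; exact Or.inl h
            · exact Or.inr hu
          · have g1 := hgot.mul (a := a) (b := b) (Or.inl ha) (Or.inl hb)
            refine g1.mono le_rfl ?_
            intro u hu
            rw [Finset.coe_insert] at hu
            rcases hu with hu | hu | hu
            · exact Or.inr (Or.inl hu)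
            · rw [hu, hab]; exact Or.inl rfl
            · exact Or.inr (Or.inr hu)
        · calc 2 ^ (t + 1) = 2 ^ t * 2 := pow_succ _ _
            _ ≤ Nat.card K * m := Nat.mul_le_mul hcard hm2
            _ ≤ _ := hcardK
        · intro z hz hz1
          have hXY : X ∪ (Y : Set G) ⊆ X ∪ ((insert y Y : Finset G) : Set G) := by
            rw [Finset.coe_insert]
            exact Set.union_subset_union_right X (Set.subset_insert _ _)
          obtain ⟨e, hem, k, hk, hek⟩ := hW2 z hz
          rcases Nat.eq_zero_or_pos e with he | he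
          · have hzk : z = k := by rw [hek, he]; simp
            rw [hzk] at hz1 ⊢
            obtain ⟨n, hn, hc⟩ := hcost k hk hz1
            refine ⟨n, ?_, fun T n' hT hg => hc T n' (hXY.trans hT) hg⟩
            have h4 : 4 ≤ m ^ 2 := by nlinarith
            calc 2 ^ (n + (t + 1) + 1) = 2 ^ (n + t + 1) * 2 := by ring
              _ ≤ (Nat.card K) ^ 2 * m ^ 2 := Nat.mul_le_mul hn (by omega)
              _ ≤ _ := hsq
          · obtain ⟨s, hs, hpow⟩ := pow_cost (G := G) e he
            have hs2 : 4 * 2 ^ s ≤ m ^ 2 := hs.trans (Nat.pow_le_pow_left (by omega) 2)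
            rcases eq_or_ne k 1 with hk1 | hk1
            · refine ⟨s, ?_, ?_⟩
              · calc 2 ^ (s + (t + 1) + 1) = 2 ^ t * (4 * 2 ^ s) := by ring
                  _ ≤ (Nat.card K) * m ^ 2 := Nat.mul_le_mul hcard hs2
                  _ ≤ (Nat.card K) ^ 2 * m ^ 2 := Nat.mul_le_mul_right _ (by nlinarith)
                  _ ≤ _ := hsq
              · intro T n' hT hg
                have g1 := hpow _ _ _ y hg (hT (Or.inr (by simp)))
                rw [hek, hk1, mul_one]
                exact g1
            · obtain ⟨n, hn, hc⟩ := hcost k hk hk1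
              refine ⟨s + n + 1, ?_, ?_⟩
              · calc 2 ^ (s + n + 1 + (t + 1) + 1) = 2 ^ (n + t + 1) * (4 * 2 ^ s) := by ring
                  _ ≤ (Nat.card K) ^ 2 * m ^ 2 := Nat.mul_le_mul hn hs2
                  _ ≤ _ := hsq
              · intro T n' hT hg
                have g1 := hpow _ _ _ y hg (hT (Or.inr (by simp)))
                have g2 := hc _ _ ((hXY.trans hT).trans (Set.subset_insert _ _)) g1
                have g3 := g2.mul (a := y ^ e) (b := k) (Or.inr (Or.inl rfl)) (Or.inl rfl)
                rw [← hek] at g3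
                refine g3.mono (by omega) ?_
                intro u hu
                rcases hu with rfl | hu
                · exact Or.inl rfl
                · exact Or.inr (Or.inr (Or.inr hu))
    obtain ⟨Y, _, _, h, _⟩ := hall (Nat.card G)
    have h2 : Nat.card (Subgroup.closure (Y : Set G)) ≤ Nat.card G :=
      Nat.le_of_dvd Nat.card_pos (Subgroup.card_subgroup_dvd_card _)
    have h3 : Nat.card G < 2 ^ Nat.card G := Nat.lt_two_pow_self
    omega
  obtain ⟨t, Y, hYZ, hgot, hcost⟩ := hfin
  intro h hh hh1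
  rw [← hYZ] at hh ⊢
  obtain ⟨n, hn, hc⟩ := hcost h hh hh1
  refine ⟨t + n, by rw [add_comm t n]; exact hn, ?_⟩
  have g1 := hc _ _ (Set.Subset.refl _) hgot
  refine g1.mono le_rfl ?_
  intro u hu
  rw [Set.mem_singleton_iff] at hu
  exact Or.inl hu

/-- The identity. -/
theorem one_cost [Finite G] [Nontrivial G] (X : Set G) (hX : Subgroup.closure X = ⊤) :
    ∃ N : ℕ, 2 ^ N < (Nat.card G) ^ 2 ∧ Got X N {(1 : G)} := by
  have hex : ∃ x ∈ X, x ≠ 1 := by
    by_contra hno
    push Not at hno
    have h1 : Subgroup.closure X ≤ ⊥ := by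
      rw [Subgroup.closure_le]
      intro x hx
      rw [hno x hx]
      exact Subgroup.one_mem _
    rw [hX] at h1
    exact bot_ne_top (le_antisymm bot_le h1)
  obtain ⟨x, hxX, hx1⟩ := hex
  have he1 : 1 ≤ orderOf x := orderOf_pos x
  have he2 : orderOf x ≠ 1 := by
    rw [Ne, orderOf_eq_one_iff]
    exact hx1
  have heG : orderOf x ≤ Nat.card G := Nat.le_of_dvd Nat.card_pos (orderOf_dvd_natCard x)
  obtain ⟨s, hs, hpow⟩ := pow_cost (G := G) (orderOf x) he1
  have g1 := hpow X X 0 x (Got.base X) hxX
  rw [pow_orderOf_eq_one, zero_add] at g1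
  refine ⟨s, ?_, g1.mono le_rfl (by intro u hu; rw [Set.mem_singleton_iff] at hu; exact Or.inl hu)⟩
  have h3 : (orderOf x) ^ 2 ≤ (Nat.card G) ^ 2 := Nat.pow_le_pow_left heG 2
  have h4 : 2 ≤ orderOf x := by omega
  nlinarith

theorem qh_nat [Finite G] [Nontrivial G]
    (hQ : ∀ H K : Subgroup G, (H : Set G) * (K : Set G) = (K : Set G) * (H : Set G))
    (X : Set G) (hX : Subgroup.closure X = ⊤) (g : G) :
    ∃ N : ℕ, 2 ^ N < (Nat.card G) ^ 2 ∧ Got X N {g} := by
  rcases eq_or_ne g 1 with hg | hg
  · rw [hg]
    exact one_cost X hX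
  · have h := perm_chain (X := X) (Z := X) (fun z hz => Or.inl hz) (by
      intro K _ y _ z hz
      let W : Submonoid G :=
        { carrier := {z | ∃ e : ℕ, ∃ k ∈ K, z = y ^ e * k}
          one_mem' := ⟨0, 1, K.one_mem, by simp⟩
          mul_mem' := by
            rintro u v ⟨e, k, hk, rfl⟩ ⟨f, k', hk', rfl⟩
            have h1 : k * y ^ f ∈ (K : Set G) * (Subgroup.zpowers y : Set G) :=
              Set.mul_mem_mul hk (Subgroup.pow_mem _ (Subgroup.mem_zpowers y) f)
            rw [hQ] at h1
            obtain ⟨w, hw, k2, hk2, hwk⟩ := Set.mem_mul.mp h1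
            have hw2 : w ∈ Submonoid.powers y := by
              rw [mem_powers_iff_mem_zpowers]
              exact hw
            obtain ⟨j, rfl⟩ := hw2
            refine ⟨e + j, k2 * k', K.mul_mem hk2 hk', ?_⟩
            calc y ^ e * k * (y ^ f * k') = y ^ e * (k * y ^ f) * k' := by group
              _ = y ^ e * (y ^ j * k2) * k' := by
                rw [← hwk]
              _ = y ^ (e + j) * (k2 * k') := by rw [pow_add]; group }
      have h1 : Submonoid.closure (insert y (K : Set G)) ≤ W := by
        rw [Submonoid.closure_le]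
        intro w hw
        rcases hw with rfl | hw
        · exact ⟨1, 1, K.one_mem, by simp⟩
        · exact ⟨0, w, hw, by simp⟩
      have h2 : z ∈ Submonoid.closure (insert y (K : Set G)) := by
        rw [← Subgroup.closure_toSubmonoid_of_finite]
        exact hz
      exact h1 h2) g (by rw [hX]; exact Subgroup.mem_top g) hg
    obtain ⟨N, hN, hgot⟩ := h
    refine ⟨N, ?_, hgot⟩
    rw [hX, Subgroup.card_top, pow_succ] at hN
    have : 0 < 2 ^ N := by positivity
    omega

theorem dih_nat [Finite G] [Nontrivial G] (A : Subgroup G) (hA2 : A.index = 2)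
    (hcomm : ∀ a ∈ A, ∀ b ∈ A, a * b = b * a)
    (hinv : ∀ g : G, g ∉ A → ∀ a ∈ A, g * a * g⁻¹ = a⁻¹)
    (X : Set G) (hX : Subgroup.closure X = ⊤) (g : G) :
    ∃ N : ℕ, 2 ^ N < (Nat.card G) ^ 2 ∧ Got X N {g} := by
  rcases eq_or_ne g 1 with hg | hg
  · rw [hg]
    exact one_cost X hX
  set Z : Set G := {z | z ∈ A ∧ (z ∈ X ∨ ∃ a ∈ X, ∃ b ∈ X, z = a * b)} with hZ
  set C := Subgroup.closure Z with hC
  have hCA : C ≤ A := by
    rw [hC, Subgroup.closure_le]
    intro z hz
    exact hz.1
  have hchain := perm_chain (X := X) (Z := Z) (fun z hz => hz.2) (by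
    intro K hK y hy z hz
    let W : Submonoid G :=
      { carrier := {z | ∃ e : ℕ, ∃ k ∈ K, z = y ^ e * k}
        one_mem' := ⟨0, 1, K.one_mem, by simp⟩
        mul_mem' := by
          rintro u v ⟨e, k, hk, rfl⟩ ⟨f, k', hk', rfl⟩
          refine ⟨e + f, k * k', K.mul_mem hk hk', ?_⟩
          have h1 : k * y ^ f = y ^ f * k :=
            hcomm k (hCA (hK hk)) _ (A.pow_mem hy.1 f)
          calc y ^ e * k * (y ^ f * k') = y ^ e * (k * y ^ f) * k' := by group
            _ = y ^ e * (y ^ f * k) * k' := by rw [h1]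
            _ = y ^ (e + f) * (k * k') := by rw [pow_add]; group }
    have h1 : Submonoid.closure (insert y (K : Set G)) ≤ W := by
      rw [Submonoid.closure_le]
      intro w hw
      rcases hw with rfl | hw
      · exact ⟨1, 1, K.one_mem, by simp⟩
      · exact ⟨0, w, hw, by simp⟩
    have h2 : z ∈ Submonoid.closure (insert y (K : Set G)) := by
      rw [← Subgroup.closure_toSubmonoid_of_finite]
      exact hz
    exact h1 h2)
  have hAG : Nat.card A * 2 = Nat.card G := by
    rw [← hA2]
    exact Subgroup.card_mul_index A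
  have hCcard : Nat.card C ≤ Nat.card A := Subgroup.card_le_of_le hCA
  have hApos : 0 < Nat.card A := Nat.card_pos
  have hCsq : (Nat.card C) ^ 2 < (Nat.card G) ^ 2 := by
    apply Nat.pow_lt_pow_left _ (by norm_num)
    omega
  -- a generator outside `A`
  have hex : ∃ s ∈ X, s ∉ A := by
    by_contra hno
    push Not at hno
    have h1 : Subgroup.closure X ≤ A := by
      rw [Subgroup.closure_le]
      exact hno
    rw [hX, top_le_iff] at h1
    rw [h1, Subgroup.index_top] at hA2
    omega
  obtain ⟨s, hsX, hsA⟩ := hex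
  have hss : s * s ∈ C := by
    apply Subgroup.subset_closure
    exact ⟨(Subgroup.mul_mem_iff_of_index_two hA2).mpr Iff.rfl, Or.inr ⟨s, hsX, s, hsX, rfl⟩⟩
  let W : Submonoid G :=
    { carrier := {g | g ∈ C ∨ s⁻¹ * g ∈ C}
      one_mem' := Or.inl C.one_mem
      mul_mem' := by
        intro u v hu hv
        have hsi : s⁻¹ ∉ A := fun h => hsA (by simpa using A.inv_mem h)
        rcases hu with hu | hu
        · rcases hv with hv | hv
          · exact Or.inl (C.mul_mem hu hv)
          · right
            have h1 : s⁻¹ * u * (s⁻¹)⁻¹ = u⁻¹ := hinv s⁻¹ hsi u (hCA hu)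
            have h2 : s⁻¹ * (u * v) = (s⁻¹ * u * (s⁻¹)⁻¹) * (s⁻¹ * v) := by group
            rw [h2, h1]
            exact C.mul_mem (C.inv_mem hu) hv
        · rcases hv with hv | hv
          · right
            rw [← mul_assoc]
            exact C.mul_mem hu hv
          · left
            have h1 : s * (s⁻¹ * u) * s⁻¹ = (s⁻¹ * u)⁻¹ := hinv s hsA _ (hCA hu)
            have h2 : u * v = (s * (s⁻¹ * u) * s⁻¹) * (s * s) * (s⁻¹ * v) := by group
            rw [h2, h1]
            exact C.mul_mem (C.mul_mem (C.inv_mem hu) hss) hv }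
  have hXW : Submonoid.closure X ≤ W := by
    rw [Submonoid.closure_le]
    intro x hx
    by_cases hxA : x ∈ A
    · exact Or.inl (Subgroup.subset_closure ⟨hxA, Or.inl hx⟩)
    · right
      have h1 : s * x ∈ C := by
        apply Subgroup.subset_closure
        refine ⟨(Subgroup.mul_mem_iff_of_index_two hA2).mpr ?_, Or.inr ⟨s, hsX, x, hx, rfl⟩⟩
        exact ⟨fun h => absurd h hsA, fun h => absurd h hxA⟩
      have h2 : s⁻¹ * x = (s * s)⁻¹ * (s * x) := by group
      rw [h2]
      exact C.mul_mem (C.inv_mem hss) h1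
  have hgW : g ∈ W := by
    apply hXW
    rw [← Subgroup.closure_toSubmonoid_of_finite, hX]
    exact Subgroup.mem_top g
  rcases hgW with hgC | hgC
  · obtain ⟨N, hN, hgot⟩ := hchain g hgC hg
    refine ⟨N, ?_, hgot⟩
    have h5 : 2 ^ (N + 1) < (Nat.card G) ^ 2 := lt_of_le_of_lt hN hCsq
    rw [pow_succ] at h5
    have : 0 < 2 ^ N := by positivity
    omega
  · rcases eq_or_ne (s⁻¹ * g) 1 with h1 | h1
    · have hgs : g = s := by
        have := inv_mul_eq_one.mp h1
        exact this.symm
      refine ⟨0, ?_, ?_⟩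
      · rw [pow_zero]
        have : 2 ≤ Nat.card G := Finite.one_lt_card
        nlinarith
      · refine (Got.base X).mono le_rfl ?_
        intro u hu
        rw [Set.mem_singleton_iff] at hu
        rw [hu, hgs]
        exact hsX
    · obtain ⟨N, hN, l, hl1, hl2, hl3⟩ := hchain _ hgC h1
      refine ⟨N + 1, lt_of_le_of_lt hN hCsq, ?_⟩
      have g0 : Got X N (insert (s⁻¹ * g) X) := ⟨l, hl1, hl2, by
        intro t ht
        rcases ht with rfl | ht
        · exact hl3 _ rfl
        · exact Or.inl ht⟩
      have g1 := g0.mul (a := s) (b := s⁻¹ * g) (Or.inr hsX) (Or.inl rfl)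
      refine g1.mono le_rfl ?_
      intro u hu
      rw [Set.mem_singleton_iff] at hu
      rw [hu]
      left
      group

end Pool.Agent.Slp57
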