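import Pool.Agent.Slp57.Invert

set_option autoImplicit false

open scoped commutatorElement

namespace Pool.Agent.Slp57

variable {G : Type*} [Group G]

theorem comm_sup_le (N A : Subgroup G) [N.Normal] : ⁅N ⊔ A, N ⊔ A⁆ ≤ N ⊔ ⁅A, A⁆ := by
  have hker : (QuotientGroup.mk' N).ker = N := QuotientGroup.ker_mk' N
  have h1 : (N ⊔ A).map (QuotientGroup.mk' N) = A.map (QuotientGroup.mk' N) := by
    rw [Subgroup.map_sup, (Subgroup.map_eq_bot_iff N).mpr hker.ge, bot_sup_eq]
  have h2 : (⁅N ⊔ A, N ⊔ A⁆).map (QuotientGroup.mk' N) = (⁅A, A⁆).map (QuotientGroup.mk' N) := by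
    rw [Subgroup.map_commutator, h1, ← Subgroup.map_commutator]
  have h3 : ⁅N ⊔ A, N ⊔ A⁆ ≤ ((⁅A, A⁆).map (QuotientGroup.mk' N)).comap (QuotientGroup.mk' N) := by
    rw [← h2]
    exact Subgroup.le_comap_map _ _
  rw [Subgroup.comap_map_eq, hker, sup_comm ⁅A, A⁆ N] at h3
  exact h3

theorem comm_closure_le (N : Subgroup G) [N.Normal] (S : Set G)
    (hS : ∀ a ∈ S, ∀ b ∈ S, ⁅a, b⁆ ∈ N) :
    ⁅Subgroup.closure S, Subgroup.closure S⁆ ≤ N := by
  have hiff : ∀ a b : G, ⁅a, b⁆ ∈ N ↔
      Commute (QuotientGroup.mk' N a) (QuotientGroup.mk' N b) := by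
    intro a b
    rw [← commutatorElement_eq_one_iff_commute, ← map_commutatorElement]
    rw [QuotientGroup.mk'_apply, QuotientGroup.eq_one_iff]
  have h1 : ∀ a ∈ S, ∀ b ∈ Subgroup.closure S, ⁅a, b⁆ ∈ N := by
    intro a ha b hb
    have h2 : Subgroup.closure S ≤
        (Subgroup.centralizer {QuotientGroup.mk' N a}).comap (QuotientGroup.mk' N) := by
      rw [Subgroup.closure_le]
      intro c hc
      simp only [Subgroup.coe_comap, Set.mem_preimage, SetLike.mem_coe,
        Subgroup.mem_centralizer_singleton_iff]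
      exact ((hiff a c).mp (hS a ha c hc)).eq.symm
    have h3 := h2 hb
    rw [Subgroup.mem_comap, Subgroup.mem_centralizer_singleton_iff] at h3
    rw [hiff]
    exact h3.symm
  rw [Subgroup.commutator_le]
  intro a ha b hb
  have h2 : Subgroup.closure S ≤
      (Subgroup.centralizer {QuotientGroup.mk' N b}).comap (QuotientGroup.mk' N) := by
    rw [Subgroup.closure_le]
    intro c hc
    simp only [Subgroup.coe_comap, Set.mem_preimage, SetLike.mem_coe,
      Subgroup.mem_centralizer_singleton_iff]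
    exact ((hiff c b).mp (h1 c hc b hb)).eq
  have h3 := h2 ha
  rw [Subgroup.mem_comap, Subgroup.mem_centralizer_singleton_iff] at h3
  rw [hiff]
  exact h3

/-- In a solvable group, if `Y` generates the `i`-th derived subgroup modulo the `(i+2)`-nd, then
a normal subgroup containing the commutators of `Y` contains the `(i+1)`-st derived subgroup. -/
theorem key_normal [Group.IsSolvable G] (i : ℕ) (Y : Set G)
    (hgen : derivedSeries G i ≤ Subgroup.closure Y ⊔ derivedSeries G (i + 2))
    (K : Subgroup G) (hKn : K.Normal) (hK : ∀ a ∈ Y, ∀ b ∈ Y, ⁅a, b⁆ ∈ K) :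
    derivedSeries G (i + 1) ≤ K := by
  have h1 : ⁅Subgroup.closure Y, Subgroup.closure Y⁆ ≤ K := comm_closure_le K Y hK
  have h2 : derivedSeries G (i + 1) ≤ K ⊔ derivedSeries G (i + 2) := by
    rw [derivedSeries_succ]
    have h3 : derivedSeries G i ≤ derivedSeries G (i + 2) ⊔ Subgroup.closure Y := by
      rw [sup_comm]
      exact hgen
    calc ⁅derivedSeries G i, derivedSeries G i⁆
        ≤ ⁅derivedSeries G (i + 2) ⊔ Subgroup.closure Y,
            derivedSeries G (i + 2) ⊔ Subgroup.closure Y⁆ := Subgroup.commutator_mono h3 h3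
      _ ≤ derivedSeries G (i + 2) ⊔ ⁅Subgroup.closure Y, Subgroup.closure Y⁆ :=
          comm_sup_le _ _
      _ ≤ K ⊔ derivedSeries G (i + 2) := by
          rw [sup_comm]
          exact sup_le_sup_right h1 _
  have h4 : ∀ j, derivedSeries G (i + 1) ≤ K ⊔ derivedSeries G (i + 1 + j) := by
    intro j
    induction j with
    | zero => exact le_sup_right
    | succ j ih =>
      have h5 : derivedSeries G (i + 2) ≤ K ⊔ derivedSeries G (i + 1 + (j + 1)) := by
        rw [show i + 2 = (i + 1) + 1 by ring, show i + 1 + (j + 1) = (i + 1 + j) + 1 by ring,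
          derivedSeries_succ, derivedSeries_succ G (i + 1 + j)]
        exact (Subgroup.commutator_mono ih ih).trans (comm_sup_le _ _)
      exact h2.trans (sup_le le_sup_left h5)
  obtain ⟨n, hn⟩ := Group.IsSolvable.solvable (G := G)
  have h6 := h4 n
  have h7 : derivedSeries G (i + 1 + n) ≤ derivedSeries G n :=
    derivedSeries_antitone G (by omega)
  rw [hn, le_bot_iff] at h7
  rw [h7, sup_bot_eq] at h6
  exact h6

/-- Every element is a product of an element obtained with `q` further multiplications and an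
element of `K`. -/
def Exp (X M : Set G) (K : Subgroup G) (q : ℕ) : Prop :=
  ∀ g : G, ∃ u : G, u⁻¹ * g ∈ K ∧
    ∀ (T : Set G) (n : ℕ), M ⊆ T → Got X n T → Got X (n + q) (insert u T)

theorem Exp.mono {X M M' : Set G} {K : Subgroup G} {q : ℕ} (h : Exp X M K q) (hM : M ⊆ M') :
    Exp X M' K q := by
  intro g
  obtain ⟨u, h1, h2⟩ := h g
  exact ⟨u, h1, fun T n hT => h2 T n (hM.trans hT)⟩

theorem sec_step [Finite G] {X M : Set G} {A B K K' : Subgroup G} {y : G} {q : ℕ}
    (hcomm : ∀ a ∈ B, ∀ b ∈ B, ⁅a, b⁆ ∈ A) (hAK : A ≤ K) (hKB : K ≤ B) (hyB : y ∈ B)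
    (hK' : K' = Subgroup.closure (insert y (K : Set G))) (hyM : y ∈ M) (hE : Exp X M K' q) :
    ∃ s, 2 ^ s * (Nat.card K) ^ 2 ≤ (Nat.card K') ^ 2 ∧ Exp X M K (q + s) := by
  classical
  have hKK' : K ≤ K' := by
    rw [hK']
    intro k hk
    exact Subgroup.subset_closure (Set.mem_insert_of_mem _ hk)
  have hyK' : y ∈ K' := by
    rw [hK']
    exact Subgroup.subset_closure (Set.mem_insert _ _)
  have hexm : ∃ m : ℕ, 0 < m ∧ y ^ m ∈ K := by
    refine ⟨orderOf y, orderOf_pos y, ?_⟩
    rw [pow_orderOf_eq_one]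
    exact Subgroup.one_mem _
  set m := Nat.find hexm with hmdef
  have hm1 : 0 < m ∧ y ^ m ∈ K := Nat.find_spec hexm
  have hmin : ∀ i, 0 < i → i < m → y ^ i ∉ K := by
    intro i hi him hmem
    exact Nat.find_min hexm him ⟨hi, hmem⟩
  have hcard := card_step K K' hKK' y hyK' m hmin
  let W : Submonoid G :=
    { carrier := {z | ∃ e : ℕ, ∃ k ∈ K, z = y ^ e * k}
      one_mem' := ⟨0, 1, K.one_mem, by simp⟩
      mul_mem' := by
        rintro u v ⟨e, k, hk, rfl⟩ ⟨f, k', hk', rfl⟩
        refine ⟨e + f, (k * ⁅k⁻¹, (y ^ f)⁻¹⁆) * k', ?_, ?_⟩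
        · apply K.mul_mem _ hk'
          apply K.mul_mem hk
          apply hAK
          exact hcomm _ (B.inv_mem (hKB hk)) _ (B.inv_mem (B.pow_mem hyB f))
        · rw [commutatorElement_def, pow_add]
          group }
  have hW : ∀ z ∈ K', ∃ e : ℕ, ∃ k ∈ K, z = y ^ e * k := by
    intro z hz
    have h1 : Submonoid.closure (insert y (K : Set G)) ≤ W := by
      rw [Submonoid.closure_le]
      intro w hw
      rcases hw with rfl | hw
      · exact ⟨1, 1, K.one_mem, by simp⟩
      · exact ⟨0, w, hw, by simp⟩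
    have h2 : z ∈ Submonoid.closure (insert y (K : Set G)) := by
      rw [← Subgroup.closure_toSubmonoid_of_finite, ← hK']
      exact hz
    exact h1 h2
  have hW2 : ∀ z ∈ K', ∃ e : ℕ, e < m ∧ ∃ k ∈ K, z = y ^ e * k := by
    intro z hz
    obtain ⟨e, k, hk, hz⟩ := hW z hz
    refine ⟨e % m, Nat.mod_lt _ hm1.1, (y ^ m) ^ (e / m) * k,
      K.mul_mem (K.pow_mem hm1.2 _) hk, ?_⟩
    rw [hz, ← mul_assoc, ← pow_mul, ← pow_add, Nat.mod_add_div]
  refine ⟨Nat.log 2 (m ^ 2), ?_, ?_⟩
  · have hmpos : m ^ 2 ≠ 0 := by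
      have := hm1.1
      positivity
    calc 2 ^ Nat.log 2 (m ^ 2) * (Nat.card K) ^ 2 ≤ m ^ 2 * (Nat.card K) ^ 2 :=
          Nat.mul_le_mul_right _ (Nat.pow_log_le_self 2 hmpos)
      _ = (Nat.card K * m) ^ 2 := by ring
      _ ≤ (Nat.card K') ^ 2 := Nat.pow_le_pow_left hcard 2
  · intro g
    obtain ⟨u, hu, hcost⟩ := hE g
    obtain ⟨e, hem, k, hk, hek⟩ := hW2 _ hu
    refine ⟨u * y ^ e, ?_, ?_⟩
    · rw [mul_inv_rev, mul_assoc, hek]
      simpa using hk
    · intro T n hT hgot
      have g1 := hcost T n hT hgot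
      rcases Nat.eq_zero_or_pos e with he | he
      · subst he
        refine g1.mono (by omega) ?_
        simp
      · obtain ⟨s, hs, hpow⟩ := pow_cost (G := G) e he
        have g2 := hpow _ _ _ y g1 (Or.inr (hT hyM))
        have g3 := g2.mul (a := u) (b := y ^ e) (Or.inr (Or.inl rfl)) (Or.inl rfl)
        have h1 : s + 1 ≤ Nat.log 2 (m ^ 2) := by
          apply Nat.le_log_of_pow_le (by norm_num)
          have h2 : (e + 1) ^ 2 ≤ m ^ 2 := Nat.pow_le_pow_left (by omega) 2
          rw [pow_succ]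
          omega
        refine g3.mono (by omega) ?_
        intro t ht
        rcases ht with rfl | ht
        · exact Or.inl rfl
        · exact Or.inr (Or.inr (Or.inr ht))

theorem sec [Finite G] {X M : Set G} {A B : Subgroup G}
    (hcomm : ∀ a ∈ B, ∀ b ∈ B, ⁅a, b⁆ ∈ A) (hAB : A ≤ B) (Y : Finset G)
    (hYB : ∀ y ∈ Y, y ∈ B) (hYM : ∀ y ∈ Y, y ∈ M) : ∀ q : ℕ,
    Exp X M (Subgroup.closure (Y : Set G) ⊔ A) q →
    ∃ s, 2 ^ s * (Nat.card A) ^ 2 ≤ (Nat.card (Subgroup.closure (Y : Set G) ⊔ A : Subgroup G)) ^ 2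
      ∧ Exp X M A (q + s) := by
  classical
  induction Y using Finset.induction_on with
  | empty =>
    intro q h
    rw [Finset.coe_empty, Subgroup.closure_empty, bot_sup_eq] at h ⊢
    exact ⟨0, by simp, h⟩
  | insert y Y hy ih =>
    intro q h
    have hK : (Subgroup.closure ((insert y Y : Finset G) : Set G) ⊔ A : Subgroup G)
        = Subgroup.closure (insert y ((Subgroup.closure (Y : Set G) ⊔ A : Subgroup G) : Set G)) := by
      rw [Finset.coe_insert]
      apply le_antisymm
      · apply sup_le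
        · rw [Subgroup.closure_le]
          intro z hz
          rcases hz with rfl | hz
          · exact Subgroup.subset_closure (Set.mem_insert _ _)
          · apply Subgroup.subset_closure
            right
            exact (le_sup_left : Subgroup.closure (Y : Set G) ≤ _) (Subgroup.subset_closure hz)
        · intro a ha
          apply Subgroup.subset_closure
          right
          exact (le_sup_right : A ≤ _) ha
      · rw [Subgroup.closure_le]
        intro z hz
        rcases hz with rfl | hz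
        · exact (le_sup_left : Subgroup.closure (insert z (Y : Set G)) ≤ _)
            (Subgroup.subset_closure (Set.mem_insert _ _))
        · exact (sup_le_sup_right (Subgroup.closure_mono (Set.subset_insert _ _)) A) hz
    have hKB : (Subgroup.closure (Y : Set G) ⊔ A : Subgroup G) ≤ B := by
      apply sup_le _ hAB
      rw [Subgroup.closure_le]
      intro z hz
      exact hYB z (Finset.mem_insert_of_mem hz)
    obtain ⟨s1, hs1, hE1⟩ := sec_step hcomm (le_sup_right) hKB
      (hYB y (Finset.mem_insert_self _ _)) hK (hYM y (Finset.mem_insert_self _ _)) h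
    obtain ⟨s2, hs2, hE2⟩ := ih (fun z hz => hYB z (Finset.mem_insert_of_mem hz))
      (fun z hz => hYM z (Finset.mem_insert_of_mem hz)) _ hE1
    refine ⟨s1 + s2, ?_, ?_⟩
    · calc 2 ^ (s1 + s2) * (Nat.card A) ^ 2 = 2 ^ s1 * (2 ^ s2 * (Nat.card A) ^ 2) := by
            rw [pow_add]; ring
        _ ≤ _ := (Nat.mul_le_mul_left _ hs2).trans hs1
    · rw [← add_assoc]
      exact hE2

end Pool.Agent.Slp57
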