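import Pool.Agent.Slp57.Basic

set_option autoImplicit false

open scoped Pointwise

namespace Pool.Agent.Slp57

variable {G : Type*} [Group G]

/-- Cost of the first `k` doublings with block length `b`. -/
def F (b : ℕ) : ℕ → ℕ
  | 0 => 0
  | k + 1 => F b k + (4 * (k / b + 1) + 2 + 2 * 2 ^ (k % b))

/-- The state of the construction after `k` doublings. -/
structure St (X : Set G) (n0 b k s : ℕ) (Y P : Set G) (B : Finset G) (M : Set G) : Prop where
  got : Got X (n0 + F b k + s) (X ∪ M)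
  one : (1 : G) ∈ M
  inv : ∀ m ∈ M, m⁻¹ ∈ M
  YX : Y ⊆ X
  YM : Y ⊆ M
  P1 : (1 : G) ∈ P
  Pl : ∀ p ∈ P, ∃ l : List G, l.length ≤ k / b ∧ (∀ x ∈ l, x ∈ M) ∧ l.prod = p
  BM : ∀ x ∈ B, x ∈ M
  B1 : (1 : G) ∈ B
  Bc : B.card ≤ 2 ^ (k % b)
  card : 2 ^ k ≤ (P * (B : Set G)).ncard
  sub : P * (B : Set G) ⊆ (Subgroup.closure Y : Set G)
  pot : 2 ^ s ≤ (Nat.card (Subgroup.closure Y)) ^ 2

/-- The set `C⁻¹ C`. -/
def Q (P : Set G) (B : Finset G) : Set G := (P * (B : Set G))⁻¹ * (P * (B : Set G))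

theorem St.Clist {X : Set G} {n0 b k s : ℕ} {Y P : Set G} {B : Finset G} {M : Set G}
    (st : St X n0 b k s Y P B M) (c : G) (hc : c ∈ P * (B : Set G)) :
    ∃ l : List G, l.length ≤ k / b + 1 ∧ (∀ x ∈ l, x ∈ M) ∧ l.prod = c := by
  obtain ⟨p, hp, x, hx, rfl⟩ := Set.mem_mul.mp hc
  obtain ⟨l, h1, h2, h3⟩ := st.Pl p hp
  refine ⟨l ++ [x], by simpa using h1, ?_, by simp [h3]⟩
  intro z hz
  rcases List.mem_append.mp hz with h | h
  · exact h2 z h
  · rw [List.mem_singleton] at h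
    subst h
    exact st.BM z hx

theorem inv_list {M : Set G} (hM : ∀ m ∈ M, m⁻¹ ∈ M) (l : List G) (hl : ∀ x ∈ l, x ∈ M) :
    ∃ l' : List G, l'.length = l.length ∧ (∀ x ∈ l', x ∈ M) ∧ l'.prod = l.prod⁻¹ := by
  refine ⟨(l.map (fun x => x⁻¹)).reverse, by simp, ?_, ?_⟩
  · intro x hx
    rw [List.mem_reverse, List.mem_map] at hx
    obtain ⟨y, hy, rfl⟩ := hx
    exact hM y (hl y hy)
  · rw [List.prod_inv_reverse]

theorem St.Qlist {X : Set G} {n0 b k s : ℕ} {Y P : Set G} {B : Finset G} {M : Set G}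
    (st : St X n0 b k s Y P B M) (a : G) (ha : a ∈ Q P B) :
    ∃ l : List G, l.length ≤ 2 * (k / b + 1) ∧ (∀ x ∈ l, x ∈ M) ∧ l.prod = a := by
  obtain ⟨u, hu, v, hv, rfl⟩ := Set.mem_mul.mp ha
  obtain ⟨l1, h1, h2, h3⟩ := st.Clist u⁻¹ (Set.mem_inv.mp hu)
  obtain ⟨l2, h4, h5, h6⟩ := st.Clist v hv
  obtain ⟨l3, h7, h8, h9⟩ := inv_list st.inv l1 h2
  refine ⟨l3 ++ l2, by rw [List.length_append]; omega, ?_, ?_⟩
  · intro x hx
    rcases List.mem_append.mp hx with h | h
    · exact h8 x h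
    · exact h5 x h
  · rw [List.prod_append, h9, h3, h6, inv_inv]

theorem St.grow [Finite G] {X : Set G} {n0 b k s : ℕ} {Y P : Set G} {B : Finset G} {M : Set G}
    (st : St X n0 b k s Y P B M) (hb : 0 < b) (Y' M1 : Set G) (s' N : ℕ)
    (hYY : Y ⊆ Y') (hY'X : Y' ⊆ X) (hMM : M ⊆ M1) (hY'M : Y' ⊆ M1)
    (hinv : ∀ m ∈ M1, m⁻¹ ∈ M1) (y : G) (hy : y ∈ M1) (hyQ : y ∉ Q P B)
    (hyc : y ∈ Subgroup.closure Y') (hgot : Got X N (X ∪ M1))
    (hN : N + 2 * 2 ^ (k % b) ≤ n0 + F b (k + 1) + s')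
    (hpot : 2 ^ s' ≤ (Nat.card (Subgroup.closure Y')) ^ 2) :
    ∃ (P' : Set G) (B' : Finset G) (M' : Set G), St X n0 b (k + 1) s' Y' P' B' M' := by
  classical
  set By : Finset G := B.image (fun x => x * y) with hBy
  set M2 : Set G := M1 ∪ {g | ∃ x ∈ B, g = x * y} ∪ {g | ∃ x ∈ B, g = y⁻¹ * x⁻¹} with hM2
  have hM12 : M1 ⊆ M2 := fun x hx => Or.inl (Or.inl hx)
  have hMM2 : M ⊆ M2 := hMM.trans hM12
  have hgot2 : Got X (n0 + F b (k + 1) + s') (X ∪ M2) := by
    have h1 := hgot.table y (Or.inr hy) B (fun x hx => Or.inr (hMM (st.BM x hx)))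
    have h2 := h1.table' y⁻¹ (Or.inl (Or.inr (hinv y hy))) B
      (fun x hx => Or.inl (Or.inr (hMM (st.inv x (st.BM x hx)))))
    refine h2.mono ?_ ?_
    · have := st.Bc
      omega
    · intro t ht
      rcases ht with ht | ht
      · exact Or.inl (Or.inl (Or.inl ht))
      · rcases ht with (ht | ht) | ht
        · exact Or.inl (Or.inl (Or.inr ht))
        · exact Or.inl (Or.inr ht)
        · exact Or.inr ht
  have hinv2 : ∀ m ∈ M2, m⁻¹ ∈ M2 := by
    intro m hm
    rcases hm with (hm | ⟨x, hx, rfl⟩) | ⟨x, hx, rfl⟩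
    · exact hM12 (hinv m hm)
    · exact Or.inr ⟨x, hx, by simp⟩
    · exact Or.inl (Or.inr ⟨x, hx, by simp⟩)
  -- the new set
  have hCeq : P * ((B ∪ By : Finset G) : Set G) = P * (B : Set G) ∪ (P * (B : Set G)) * {y} := by
    rw [Finset.coe_union, Set.mul_union, hBy, Finset.coe_image, mul_assoc, Set.mul_singleton]
  have hdisj : Disjoint (P * (B : Set G)) ((P * (B : Set G)) * {y}) := by
    rw [Set.disjoint_left]
    intro g hg hg2
    rw [Set.mul_singleton] at hg2
    obtain ⟨c, hc, rfl⟩ := hg2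
    apply hyQ
    refine Set.mem_mul.mpr ⟨c⁻¹, Set.inv_mem_inv.mpr hc, c * y, hg, by simp⟩
  have hcard : 2 ^ (k + 1) ≤ (P * ((B ∪ By : Finset G) : Set G)).ncard := by
    rw [hCeq, Set.ncard_union_eq hdisj (Set.toFinite _) (Set.toFinite _), Set.mul_singleton,
      Set.ncard_image_of_injective _ (mul_left_injective y), pow_succ]
    have := st.card
    omega
  have hsub : P * ((B ∪ By : Finset G) : Set G) ⊆ (Subgroup.closure Y' : Set G) := by
    rw [hCeq]
    intro g hg
    have hle : Subgroup.closure Y ≤ Subgroup.closure Y' := Subgroup.closure_mono hYY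
    rcases hg with hg | hg
    · exact hle (st.sub hg)
    · rw [Set.mul_singleton] at hg
      obtain ⟨c, hc, rfl⟩ := hg
      exact Subgroup.mul_mem _ (hle (st.sub hc)) hyc
  have hBM2 : ∀ x ∈ B ∪ By, x ∈ M2 := by
    intro x hx
    rcases Finset.mem_union.mp hx with h | h
    · exact hMM2 (st.BM x h)
    · rw [hBy, Finset.mem_image] at h
      obtain ⟨z, hz, rfl⟩ := h
      exact Or.inl (Or.inr ⟨z, hz, rfl⟩)
  have hBcard : (B ∪ By).card ≤ 2 * 2 ^ (k % b) := by
    have h1 := Finset.card_union_le B By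
    have h2 : By.card ≤ B.card := Finset.card_image_le
    have := st.Bc
    omega
  have hYM2 : Y' ⊆ M2 := hY'M.trans hM12
  have hone2 : (1 : G) ∈ M2 := hMM2 st.one
  have hPl2 : ∀ p ∈ P, ∃ l : List G, l.length ≤ k / b ∧ (∀ x ∈ l, x ∈ M2) ∧ l.prod = p := by
    intro p hp
    obtain ⟨l, h1, h2, h3⟩ := st.Pl p hp
    exact ⟨l, h1, fun x hx => hMM2 (h2 x hx), h3⟩
  by_cases hk : (k + 1) % b = 0
  · have hdiv : (k + 1) / b = k / b + 1 := by
      obtain ⟨q, hq⟩ := Nat.dvd_of_mod_eq_zero hk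
      have h1 : (k + 1) / b = q := by rw [hq, Nat.mul_div_cancel_left _ hb]
      have hq0 : 0 < q := by
        rcases Nat.eq_zero_or_pos q with h | h
        · subst h
          omega
        · exact h
      have h2 : k / b = q - 1 := by
        apply Nat.div_eq_of_lt_le
        · have : (q - 1) * b = q * b - b := by rw [Nat.sub_mul, one_mul]
          rw [this, mul_comm q b]
          omega
        · have : (q - 1 + 1) = q := by omega
          rw [this, mul_comm q b]
          omega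
      omega
    refine ⟨P * ((B ∪ By : Finset G) : Set G), {1}, M2, ⟨hgot2, hone2, hinv2, hY'X, hYM2, ?_, ?_,
      ?_, ?_, ?_, ?_, ?_, hpot⟩⟩
    · refine Set.mem_mul.mpr ⟨1, st.P1, 1, ?_, by simp⟩
      exact Finset.mem_coe.mpr (Finset.mem_union_left _ st.B1)
    · intro p hp
      obtain ⟨p1, hp1, x, hx, rfl⟩ := Set.mem_mul.mp hp
      obtain ⟨l, h1, h2, h3⟩ := hPl2 p1 hp1
      refine ⟨l ++ [x], ?_, ?_, by simp [h3]⟩
      · rw [hdiv, List.length_append]
        simpa using h1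
      · intro z hz
        rcases List.mem_append.mp hz with h | h
        · exact h2 z h
        · rw [List.mem_singleton] at h
          subst h
          exact hBM2 z hx
    · intro x hx
      rw [Finset.mem_singleton] at hx
      rw [hx]
      exact hone2
    · simp
    · rw [Finset.card_singleton]
      exact Nat.one_le_two_pow
    · rw [Finset.coe_singleton, Set.mul_singleton]
      simpa using hcard
    · rw [Finset.coe_singleton, Set.mul_singleton]
      simpa using hsub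
  · have hmod : (k + 1) % b = k % b + 1 := by
      have h1 : k % b < b := Nat.mod_lt _ hb
      rcases Nat.lt_or_ge (k % b + 1) b with h2 | h2
      · rw [Nat.add_mod, Nat.mod_eq_of_lt (show 1 < b by omega), Nat.mod_eq_of_lt h2]
      · exfalso
        apply hk
        have h3 : k % b + 1 = b := by omega
        have h4 := Nat.div_add_mod k b
        have : k + 1 = b * (k / b + 1) := by
          rw [mul_add, mul_one]
          omega
        rw [this]
        exact Nat.mul_mod_right _ _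
    have hdiv : (k + 1) / b = k / b := by
      have h4 := Nat.div_add_mod k b
      have h5 := Nat.div_add_mod (k + 1) b
      rw [hmod] at h5
      have h6 : b * ((k + 1) / b) = b * (k / b) := by omega
      exact Nat.eq_of_mul_eq_mul_left hb h6
    refine ⟨P, B ∪ By, M2, ⟨hgot2, hone2, hinv2, hY'X, hYM2, st.P1, ?_, hBM2, ?_, ?_, hcard,
      hsub, hpot⟩⟩
    · rw [hdiv]
      exact hPl2
    · exact Finset.mem_union_left _ st.B1
    · rw [hmod, pow_succ]
      omega

end Pool.Agent.Slp57
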